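import Mathlib

/-!
# Powers and primes in integral closures
-/

set_option autoImplicit false

namespace Pool.Agent.R323.SH

open Polynomial Algebra

section rad

variable {A K L : Type} [CommRing A] [IsDomain A] [IsIntegrallyClosed A] [Field K] [Algebra A K]
  [IsFractionRing A K] [Field L] [Algebra K L] [Algebra A L] [IsScalarTower A K L]
  [FiniteDimensional K L] [Algebra.IsSeparable K L]

theorem trace_dvd (π : A) (hπ : Prime π) (z w : L) (n : ℕ) (hz : IsIntegral A z)
    (hw : IsIntegral A w) (h : z ^ n = algebraMap A L π * w) :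
    ∃ a : A, Algebra.trace K L z = algebraMap A K (π * a) := by
  classical
  let E := AlgebraicClosure L
  let R := integralClosure A E
  have hσ : ∀ (σ : L →ₐ[K] E) (u : L), IsIntegral A u → IsIntegral A (σ u) := by
    intro σ u hu
    exact hu.map (σ.restrictScalars A)
  let zz : (L →ₐ[K] E) → R := fun σ => ⟨σ z, hσ σ z hz⟩
  let ww : (L →ₐ[K] E) → R := fun σ => ⟨σ w, hσ σ w hw⟩
  have hrad : ∀ σ, zz σ ∈ (Ideal.span {algebraMap A R π}).radical := by
    intro σ
    refine ⟨n, Ideal.mem_span_singleton'.2 ⟨ww σ, ?_⟩⟩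
    apply Subtype.ext
    have h1 : σ z ^ n = algebraMap A E π * σ w := by
      rw [← map_pow, h, map_mul]
      congr 1
      rw [IsScalarTower.algebraMap_apply A K L, AlgHom.commutes,
        ← IsScalarTower.algebraMap_apply A K E]
    show σ w * algebraMap A E π = σ z ^ n
    rw [h1, mul_comm]
  obtain ⟨m, hm⟩ := Ideal.sum_mem _ (fun σ (_ : σ ∈ (Finset.univ : Finset (L →ₐ[K] E))) => hrad σ)
  obtain ⟨u, hu⟩ := Ideal.mem_span_singleton'.1 hm
  have h2 : IsIntegral A (Algebra.trace K L z) := isIntegral_trace hz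
  obtain ⟨a₀, ha₀⟩ := IsIntegrallyClosed.isIntegral_iff.1 h2
  have h3 : (algebraMap A E a₀) ^ m = (u : E) * algebraMap A E π := by
    have h4 : ((∑ σ : L →ₐ[K] E, zz σ : R) : E) = algebraMap A E a₀ := by
      rw [IsScalarTower.algebraMap_apply A K E, ha₀, trace_eq_sum_embeddings E]
      push_cast
      rfl
    have h5 : ((u * algebraMap A R π : R) : E) = (((∑ σ : L →ₐ[K] E, zz σ) ^ m : R) : E) :=
      congrArg (fun r : R => (r : E)) hu
    rw [← h4]
    have h6 : (((∑ σ : L →ₐ[K] E, zz σ) ^ m : R) : E) = ((∑ σ : L →ₐ[K] E, zz σ : R) : E) ^ m := by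
      push_cast
      rfl
    rw [← h6, ← h5]
    rfl
  have hinj : Function.Injective (algebraMap A E) := by
    rw [IsScalarTower.algebraMap_eq A K E]
    exact (algebraMap K E).injective.comp (IsFractionRing.injective A K)
  have hπ0 : algebraMap A E π ≠ 0 := by
    rw [Ne, map_eq_zero_iff _ hinj]
    exact hπ.ne_zero
  have hπK : algebraMap A K π ≠ 0 := by
    rw [Ne, map_eq_zero_iff _ (IsFractionRing.injective A K)]
    exact hπ.ne_zero
  have h7 : (u : E) = algebraMap K E (algebraMap A K (a₀ ^ m) / algebraMap A K π) := by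
    rw [map_div₀, ← IsScalarTower.algebraMap_apply, ← IsScalarTower.algebraMap_apply, map_pow, h3,
      mul_div_cancel_right₀ _ hπ0]
  have h8 : IsIntegral A (algebraMap A K (a₀ ^ m) / algebraMap A K π) := by
    have := u.2
    rw [mem_integralClosure_iff, h7] at this
    exact (isIntegral_algebraMap_iff (algebraMap K E).injective).1 this
  obtain ⟨a₁, ha₁⟩ := IsIntegrallyClosed.isIntegral_iff.1 h8
  have h9 : a₀ ^ m = π * a₁ := by
    apply IsFractionRing.injective A K
    rw [map_mul, ha₁, mul_div_cancel₀ _ hπK]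
  obtain ⟨a, ha⟩ := hπ.dvd_of_dvd_pow (Dvd.intro _ h9.symm)
  exact ⟨a, by rw [← ha₀, ha]⟩

theorem rad_mul (A K L : Type) [CommRing A] [IsDomain A] [IsIntegrallyClosed A] [Field K]
    [Algebra A K] [IsFractionRing A K] [Field L] [Algebra K L] [Algebra A L] [IsScalarTower A K L]
    [FiniteDimensional K L] [Algebra.IsSeparable K L] : ∃ δ : A, δ ≠ 0 ∧ ∀ π : A, Prime π → ∀ (b w : L) (n : ℕ), IsIntegral A b →
    IsIntegral A w → b ^ n = algebraMap A L π * w →
    ∃ b' : L, IsIntegral A b' ∧ algebraMap A L δ * b = algebraMap A L π * b' := by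
  classical
  obtain ⟨s, bs, hbs⟩ := FiniteDimensional.exists_is_basis_integral A K L
  obtain ⟨δ, hδ0, hδ⟩ := exists_integral_multiples A K (Finset.univ.image fun i => bs.traceDual i)
  refine ⟨δ, hδ0, ?_⟩
  intro π hπ b w n hb hw h
  have h1 : ∀ i, ∃ a : A, Algebra.trace K L (b * bs i) = algebraMap A K (π * a) := by
    intro i
    refine trace_dvd π hπ (b * bs i) (w * bs i ^ n) n (hb.mul (hbs i)) (hw.mul ((hbs i).pow n)) ?_
    rw [mul_pow, h]
    ring
  choose a ha using h1
  refine ⟨∑ i, algebraMap A L (a i) * (δ • bs.traceDual i), ?_, ?_⟩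
  · refine IsIntegral.sum _ fun i _ => IsIntegral.mul isIntegral_algebraMap ?_
    exact hδ _ (Finset.mem_image_of_mem _ (Finset.mem_univ i))
  · have h2 := bs.traceDual.sum_repr b
    conv_lhs => rw [← h2]
    rw [Finset.mul_sum, Finset.mul_sum]
    refine Finset.sum_congr rfl fun i _ => ?_
    have h3 : bs.traceDual.repr b i = algebraMap A K (π * a i) := by
      rw [Module.Basis.traceDual_repr_apply, ← ha, Algebra.traceForm_apply]
    rw [h3, Algebra.smul_def, Algebra.smul_def, ← IsScalarTower.algebraMap_apply, map_mul]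
    ring

end rad

end Pool.Agent.R323.SH
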