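import Pool.Agent.R323.SH.A

/-!
# No infinite sequences of powers: function fields
-/

set_option autoImplicit false

namespace Pool.Agent.R323.SH

open Polynomial Algebra

theorem no_powers (A K L : Type) [CommRing A] [IsDomain A] [IsIntegrallyClosed A] [Field K]
    [Algebra A K] [IsFractionRing A K] [Field L] [Algebra K L] [Algebra A L] [IsScalarTower A K L]
    [FiniteDimensional K L] [Algebra.IsSeparable K L] {ι : Type} (t : A) (x : ι → A)
    (hπ : ∀ i, Prime (x i - t)) (hinf : ∀ a : A, a ≠ 0 → ∃ i, ¬ (x i - t) ∣ a) (f₂ : L[X])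
    (h2 : f₂.eval (algebraMap A L t) ≠ 0) (n : ℕ) (hn : 2 ≤ n) (c : ι → L)
    (hc : ∀ i, c i ^ n = algebraMap A L (x i - t) * f₂.eval (algebraMap A L (x i))) : False := by
  classical
  obtain ⟨δ, hδ0, hδ⟩ := rad_mul A K L
  obtain ⟨h, hh0, hh⟩ := exists_integral_multiples A K
    ((Finset.range (f₂.natDegree + 1)).image fun j => f₂.coeff j)
  have hh' : ∀ j ∈ Finset.range (f₂.natDegree + 1), IsIntegral A (algebraMap A L h * f₂.coeff j) := by
    intro j hj
    have := hh _ (Finset.mem_image_of_mem _ hj)
    rwa [Algebra.smul_def] at this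
  have hinj : Function.Injective (algebraMap A L) := by
    rw [IsScalarTower.algebraMap_eq A K L]
    exact (algebraMap K L).injective.comp (IsFractionRing.injective A K)
  have hne : ∀ a : A, a ≠ 0 → algebraMap A L a ≠ 0 := fun a ha => by
    rwa [Ne, map_eq_zero_iff _ hinj]
  -- integrality of the values
  have hval : ∀ a : A, IsIntegral A (algebraMap A L h * f₂.eval (algebraMap A L a)) := by
    intro a
    rw [Polynomial.eval_eq_sum_range, Finset.mul_sum]
    refine IsIntegral.sum _ fun j hj => ?_
    rw [← mul_assoc]
    exact (hh' j hj).mul (isIntegral_algebraMap.pow j)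
  have hdiff : ∀ a : A, ∃ q : L, IsIntegral A q ∧ algebraMap A L h * f₂.eval (algebraMap A L a) -
      algebraMap A L h * f₂.eval (algebraMap A L t) = algebraMap A L (a - t) * q := by
    intro a
    have h1 : ∀ j : ℕ, ∃ s : A, a ^ j - t ^ j = (a - t) * s := fun j => sub_dvd_pow_sub_pow a t j
    choose s hs using h1
    refine ⟨∑ j ∈ Finset.range (f₂.natDegree + 1),
      (algebraMap A L h * f₂.coeff j) * algebraMap A L (s j), ?_, ?_⟩
    · exact IsIntegral.sum _ fun j hj => (hh' j hj).mul isIntegral_algebraMap
    · rw [Polynomial.eval_eq_sum_range, Polynomial.eval_eq_sum_range, ← mul_sub,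
        ← Finset.sum_sub_distrib, Finset.mul_sum, Finset.mul_sum]
      refine Finset.sum_congr rfl fun j _ => ?_
      rw [← mul_sub, ← map_pow, ← map_pow, ← map_sub, hs, map_mul]
      ring
  -- the element divisible by all the primes
  obtain ⟨w, hw⟩ : ∃ w : L, w = (algebraMap A L (δ * h)) ^ n *
      (algebraMap A L h * f₂.eval (algebraMap A L t)) := ⟨_, rfl⟩
  have hw0 : w ≠ 0 := by
    rw [hw]
    exact mul_ne_zero (pow_ne_zero _ (hne _ (mul_ne_zero hδ0 hh0))) (mul_ne_zero (hne _ hh0) h2)
  have hdvd : ∀ i, ∃ u : L, IsIntegral A u ∧ w = algebraMap A L (x i - t) * u := by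
    intro i
    obtain ⟨π, hπd⟩ : ∃ π, π = x i - t := ⟨_, rfl⟩
    have hpr := hπ i
    have hci := hc i
    obtain ⟨q, hq, hqe⟩ := hdiff (x i)
    rw [← hπd] at hpr hci hqe ⊢
    have hπ0 := hne π hpr.ne_zero
    have e1 : (algebraMap A L h * c i) ^ n = algebraMap A L π *
        (algebraMap A L h ^ (n - 1) * (algebraMap A L h * f₂.eval (algebraMap A L (x i)))) := by
      have e0 : algebraMap A L h ^ n = algebraMap A L h ^ (n - 1) * algebraMap A L h := by
        rw [← pow_succ]
        congr 1
        omega
      rw [mul_pow, hci, e0]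
      ring
    have e2 : IsIntegral A (algebraMap A L h ^ (n - 1) *
        (algebraMap A L h * f₂.eval (algebraMap A L (x i)))) :=
      (isIntegral_algebraMap.pow _).mul (hval _)
    have e3 : IsIntegral A (algebraMap A L h * c i) := by
      refine IsIntegral.of_pow (n := n) (by omega) ?_
      rw [e1]
      exact isIntegral_algebraMap.mul e2
    obtain ⟨b', hb', hb''⟩ := hδ π hpr _ _ n e3 e2 e1
    have e4 : (algebraMap A L (δ * h)) ^ n * f₂.eval (algebraMap A L (x i)) =
        algebraMap A L π * (algebraMap A L π ^ (n - 2) * b' ^ n) := by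
      apply mul_left_cancel₀ hπ0
      have e5 : algebraMap A L π ^ n = algebraMap A L π * (algebraMap A L π *
          algebraMap A L π ^ (n - 2)) := by
        rw [← pow_succ', ← pow_succ']
        congr 1
        omega
      calc algebraMap A L π * ((algebraMap A L (δ * h)) ^ n * f₂.eval (algebraMap A L (x i)))
          = (algebraMap A L (δ * h)) ^ n * (algebraMap A L π * f₂.eval (algebraMap A L (x i))) := by
            ring
        _ = (algebraMap A L δ * (algebraMap A L h * c i)) ^ n := by
            rw [← hci, map_mul]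
            ring
        _ = algebraMap A L π ^ n * b' ^ n := by rw [hb'', mul_pow]
        _ = _ := by rw [e5]; ring
    refine ⟨algebraMap A L h * (algebraMap A L π ^ (n - 2) * b' ^ n) -
      (algebraMap A L (δ * h)) ^ n * q, ?_, ?_⟩
    · exact (isIntegral_algebraMap.mul ((isIntegral_algebraMap.pow _).mul (hb'.pow _))).sub
        ((isIntegral_algebraMap.pow _).mul hq)
    · rw [hw]
      linear_combination (algebraMap A L h) * e4 - (algebraMap A L (δ * h)) ^ n * hqe
  obtain ⟨a, ha0, ha⟩ := exists_integral_multiples A K ({w⁻¹} : Finset L)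
  have ha' := ha w⁻¹ (Finset.mem_singleton_self _)
  rw [Algebra.smul_def] at ha'
  obtain ⟨i, hi⟩ := hinf a ha0
  apply hi
  obtain ⟨u, hu, hu'⟩ := hdvd i
  have hπ0 := hne _ (hπ i).ne_zero
  have hπK : algebraMap A K (x i - t) ≠ 0 := by
    rw [Ne, map_eq_zero_iff _ (IsFractionRing.injective A K)]
    exact (hπ i).ne_zero
  have h5 : algebraMap A L a = algebraMap A L (x i - t) * (algebraMap A L a * w⁻¹ * u) := by
    calc algebraMap A L a = algebraMap A L a * w⁻¹ * w := by
          rw [mul_assoc, inv_mul_cancel₀ hw0, mul_one]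
      _ = _ := by
          conv_lhs => rw [hu']
          rw [hu']
          ring
  have h6 : algebraMap A L a * w⁻¹ * u =
      algebraMap K L (algebraMap A K a / algebraMap A K (x i - t)) := by
    rw [map_div₀, ← IsScalarTower.algebraMap_apply, ← IsScalarTower.algebraMap_apply]
    rw [eq_div_iff hπ0]
    conv_rhs => rw [h5]
    ring
  have h7 : IsIntegral A (algebraMap A K a / algebraMap A K (x i - t)) := by
    have := ha'.mul hu
    rw [h6] at this
    exact (isIntegral_algebraMap_iff (algebraMap K L).injective).1 this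
  obtain ⟨a₁, ha₁⟩ := IsIntegrallyClosed.isIntegral_iff.1 h7
  refine ⟨a₁, ?_⟩
  apply IsFractionRing.injective A K
  rw [map_mul, ha₁, mul_div_cancel₀ _ hπK]

/-- the function field version -/
theorem no_powers_ff {k L : Type} [Field k] [Field L] [Algebra k L] [CharZero k]
    (hFG : (⊤ : IntermediateField k L).FG) (T : L) (hT : Transcendental k T)
    (halg : Algebra.IsAlgebraic (IntermediateField.adjoin k {T}) L) (x : ℕ → k)
    (hx : Function.Injective x) (f₂ : L[X]) (h2 : f₂.eval T ≠ 0) (n : ℕ) (hn : 2 ≤ n) (c : ℕ → L)
    (hc : ∀ i, c i ^ n = (algebraMap k L (x i) - T) * f₂.eval (algebraMap k L (x i))) : False := by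
  classical
  open scoped IntermediateField.algebraAdjoinAdjoin in
  let A := Algebra.adjoin k {T}
  let K := IntermediateField.adjoin k {T}
  let e : k[X] ≃ₐ[k] A := algEquivOfTranscendental k T hT
  have heX : (e X : L) = T := by
    have := algEquivOfTranscendental_apply k T hT X
    show ((algEquivOfTranscendental k T hT X : A) : L) = T
    rw [this]
    simp
  have : IsIntegrallyClosed A := IsIntegrallyClosed.of_equiv e.toRingEquiv
  have : CharZero K := charZero_of_injective_algebraMap (algebraMap k K).injective
  have : FiniteDimensional K L := by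
    obtain ⟨S, hS⟩ := hFG
    have h1 : IntermediateField.adjoin K (S : Set L) = ⊤ := by
      apply IntermediateField.restrictScalars_injective k
      rw [IntermediateField.adjoin_adjoin_left, IntermediateField.restrictScalars_top, _root_.eq_top_iff,
        ← hS]
      exact IntermediateField.adjoin.mono _ _ _ Set.subset_union_right
    have h3 : FiniteDimensional K (IntermediateField.adjoin K (S : Set L)) := by
      have : Finite (S : Set L) := S.finite_toSet
      exact IntermediateField.finiteDimensional_adjoin fun s _ =>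
        (Algebra.IsAlgebraic.isAlgebraic s).isIntegral
    rw [h1] at h3
    exact (IntermediateField.topEquiv (F := K) (E := L)).toLinearEquiv.finiteDimensional
  have key : ∀ i, e (C (x i) - X) = algebraMap k A (x i) - e X := by
    intro i
    rw [map_sub]
    congr 1
    exact e.commutes (x i)
  refine no_powers A K L (e X) (fun i => algebraMap k A (x i)) ?_ ?_ f₂ ?_ n hn c ?_
  · intro i
    rw [← key]
    refine (MulEquiv.prime_iff e).2 ?_
    have h1 := Polynomial.prime_X_sub_C (x i)
    have h2 : (C (x i) - X : k[X]) = -(X - C (x i)) := by ring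
    rw [h2]
    exact h1.neg
  · intro a ha
    by_contra hcon
    push Not at hcon
    obtain ⟨p, rfl⟩ := e.surjective a
    have hp0 : p ≠ 0 := by
      rintro rfl
      exact ha (map_zero e)
    apply hp0
    refine Polynomial.eq_zero_of_infinite_isRoot p ?_
    refine Set.infinite_of_injective_forall_mem hx fun i => ?_
    obtain ⟨q, hq⟩ := hcon i
    obtain ⟨q', rfl⟩ := e.surjective q
    rw [← key, ← map_mul] at hq
    have h3 := e.injective hq
    show p.IsRoot (x i)
    rw [h3, Polynomial.IsRoot.def, Polynomial.eval_mul, Polynomial.eval_sub, Polynomial.eval_C,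
      Polynomial.eval_X, sub_self, zero_mul]
  · show f₂.eval ((e X : A) : L) ≠ 0
    rw [heX]
    exact h2
  · intro i
    rw [hc i]
    have h1 : algebraMap A L (algebraMap k A (x i)) = algebraMap k L (x i) := rfl
    have h2 : algebraMap A L (e X) = T := heX
    rw [map_sub, h1, h2]

end Pool.Agent.R323.SH
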