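import Pool.Agent.R323.SH.B
import Pool.Agent.Z864.UB.Alg

/-!
# No infinite sequences of powers: finitely generated fields
-/

set_option autoImplicit false

namespace Pool.Agent.R323.SH

open Polynomial Pool.Agent.Z864.UB

theorem exchange {k L : Type} [Field k] [Field L] [Algebra k L]
    (hFG : (⊤ : IntermediateField k L).FG) (α : L) (hα : Transcendental k α) :
    ∃ k₁ : IntermediateField k L, Transcendental k₁ α ∧
      Algebra.IsAlgebraic (IntermediateField.adjoin k₁ {α}) L ∧
      (⊤ : IntermediateField k₁ L).FG := by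
  classical
  obtain ⟨S, hS⟩ := hFG
  have h0 : (MM k L).Indep {α} := by
    refine AlgebraicIndependent.matroid_indep_iff.mpr ?_
    refine algebraicIndependent_unique_type_iff.2 ?_
    exact hα
  obtain ⟨J, hJ, hαJ⟩ := h0.subset_isBasis_of_subset (X := {α} ∪ (S : Set L))
    Set.subset_union_left (subset_ground' _)
  have hα' : α ∈ J := hαJ rfl
  have hcl : (S : Set L) ⊆ (MM k L).closure J := Set.subset_union_right.trans hJ.subset_closure
  have hI : (MM k L).Indep J := hJ.indep
  have hgen : ∀ V : Set L, J ∪ S ⊆ (J \ {α}) ∪ V →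
      IntermediateField.adjoin (IntermediateField.adjoin k (J \ {α})) V = ⊤ := by
    intro V hV
    apply IntermediateField.restrictScalars_injective k
    rw [IntermediateField.adjoin_adjoin_left, IntermediateField.restrictScalars_top, eq_top_iff,
      ← hS]
    exact IntermediateField.adjoin.mono _ _ _ (Set.subset_union_right.trans hV)
  refine ⟨IntermediateField.adjoin k (J \ {α}), ?_, ?_, ?_⟩
  · intro h
    exact hI.notMem_closure_sdiff_of_mem hα' (mem_cl.mpr h)
  · have h1 : ∀ x : L, x ∈ (MM k L).closure J := by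
      intro x
      have h2 : x ∈ IntermediateField.adjoin k (S : Set L) := by rw [hS]; trivial
      exact cl_cl hcl (mem_cl_of_adjoin h2)
    refine ⟨fun x => ?_⟩
    have h2 : IsAlgebraic (IntermediateField.adjoin k ((J \ {α}) ∪ {α})) x := by
      rw [← mem_cl]
      refine (MM k L).closure_subset_closure ?_ (h1 x)
      intro y hy
      by_cases hyb : y = α
      · exact Or.inr hyb
      · exact Or.inl ⟨hy, hyb⟩
    rw [← IntermediateField.adjoin_adjoin_left] at h2
    exact h2
  · rw [← hgen ({α} ∪ S) (by
      intro y hy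
      rcases hy with hy | hy
      · by_cases hyb : y = α
        · exact Or.inr (Or.inl hyb)
        · exact Or.inl ⟨hy, hyb⟩
      · exact Or.inr (Or.inr hy))]
    exact IntermediateField.fg_adjoin_of_finite ((Set.finite_singleton α).union S.finite_toSet)

theorem one_root {k L : Type} [Field k] [Field L] [Algebra k L] [CharZero k]
    (hFG : (⊤ : IntermediateField k L).FG) (g : L[X]) (hsep : g.Separable) (α : L)
    (hα : g.IsRoot α) (n : ℕ) (hn : 2 ≤ n) (x : ℕ → k) (hx : Function.Injective x) (c : ℕ → L)
    (hc : ∀ i, c i ^ n = g.eval (algebraMap k L (x i))) : IsAlgebraic k α := by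
  classical
  by_contra hT
  obtain ⟨k₁, h1, h2, h3⟩ := exchange hFG α hT
  obtain ⟨g₂, hg₂⟩ := Polynomial.dvd_iff_isRoot.2 hα
  have : CharZero k₁ := charZero_of_injective_algebraMap (algebraMap k k₁).injective
  refine no_powers_ff h3 α h1 h2 (fun i => algebraMap k k₁ (x i))
    ((algebraMap k k₁).injective.comp hx) g₂ ?_ n hn c ?_
  · have h4 := hsep.eval₂_derivative_ne_zero (RingHom.id L) (x := α) (by
      rw [Polynomial.eval₂_id]; exact hα)
    rw [Polynomial.eval₂_id, hg₂, Polynomial.derivative_mul, Polynomial.eval_add,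
      Polynomial.eval_mul, Polynomial.eval_mul, Polynomial.eval_sub, Polynomial.eval_X,
      Polynomial.eval_C, sub_self, zero_mul, add_zero, Polynomial.derivative_sub,
      Polynomial.derivative_X, Polynomial.derivative_C, sub_zero, Polynomial.eval_one,
      one_mul] at h4
    exact h4
  · intro i
    have h4 : algebraMap k₁ L (algebraMap k k₁ (x i)) = algebraMap k L (x i) := rfl
    rw [h4, hc i]
    conv_lhs => rw [hg₂]
    rw [Polynomial.eval_mul, Polynomial.eval_sub, Polynomial.eval_X, Polynomial.eval_C]

theorem ratios_algebraic {k E : Type} [Field k] [Field E] [Algebra k E] [CharZero k]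
    (hFG : (⊤ : IntermediateField k E).FG) (f : E[X]) (hsep : f.Separable) (n : ℕ) (hn : 2 ≤ n)
    (x : ℕ → k) (hx : Function.Injective x) (c : ℕ → E)
    (hc : ∀ i, c i ^ n = f.eval (algebraMap k E (x i))) (j : ℕ) :
    IsAlgebraic k (f.coeff j / f.leadingCoeff) := by
  classical
  let Ω := AlgebraicClosure E
  have hroot : ∀ α : Ω, α ∈ (f.map (algebraMap E Ω)).roots → IsAlgebraic k α := by
    intro α hα
    have hα' : (f.map (algebraMap E Ω)).IsRoot α := Polynomial.isRoot_of_mem_roots hα
    let L := IntermediateField.adjoin E {α}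
    have hint : IsIntegral E α := Algebra.IsIntegral.isIntegral α
    have : FiniteDimensional E L := IntermediateField.adjoin.finiteDimensional hint
    have : Algebra.EssFiniteType k E := IntermediateField.fg_top_iff.1 hFG
    have : Algebra.EssFiniteType E L := inferInstance
    have : Algebra.EssFiniteType k L := Algebra.EssFiniteType.comp k E L
    have hFG' : (⊤ : IntermediateField k L).FG := IntermediateField.fg_top_iff.2 inferInstance
    obtain ⟨a, ha⟩ : ∃ a : L, a = IntermediateField.AdjoinSimple.gen E α := ⟨_, rfl⟩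
    have ha' : algebraMap L Ω a = α := by rw [ha]; rfl
    have h1 := one_root hFG' (f.map (algebraMap E L)) (hsep.map) a (by
      have h2 : (f.map (algebraMap E Ω)) = (f.map (algebraMap E L)).map (algebraMap L Ω) := by
        rw [Polynomial.map_map, ← IsScalarTower.algebraMap_eq]
      rw [h2, ← ha'] at hα'
      rw [Polynomial.IsRoot.def, Polynomial.eval_map_apply] at hα'
      exact (map_eq_zero_iff _ (algebraMap L Ω).injective).1 hα') n hn x hx
      (fun i => algebraMap E L (c i)) (by
      intro i
      rw [← map_pow, hc, IsScalarTower.algebraMap_apply k E L, Polynomial.eval_map_apply])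
    have htow : IsScalarTower k L Ω := IsScalarTower.of_algebraMap_eq fun y => by
      rw [IsScalarTower.algebraMap_apply k E Ω, IsScalarTower.algebraMap_apply k E L,
        IsScalarTower.algebraMap_apply E L Ω]
    rw [← ha']
    exact h1.algebraMap
  have hlead : f.leadingCoeff ≠ 0 := Polynomial.leadingCoeff_ne_zero.2 hsep.ne_zero
  have hsplit : (f.map (algebraMap E Ω)).Splits := IsAlgClosed.splits _
  have h1 := hsplit.eq_prod_roots
  rw [Polynomial.leadingCoeff_map] at h1
  obtain ⟨P, hP⟩ : ∃ P, P = ((f.map (algebraMap E Ω)).roots.map fun a => X - C a).prod := ⟨_, rfl⟩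
  rw [← hP] at h1
  have h2 : P ∈ Polynomial.lifts (algebraMap (algebraicClosure k Ω) Ω) := by
    rw [hP]
    refine Subsemiring.multiset_prod_mem _ _ fun p hp => ?_
    obtain ⟨a, ha, rfl⟩ := Multiset.mem_map.1 hp
    have h3 : (X - C a : Polynomial Ω) = (X - C (⟨a, (mem_algebraicClosure_iff).2 (hroot a ha)⟩ :
        algebraicClosure k Ω)).map (algebraMap (algebraicClosure k Ω) Ω) := by
      rw [Polynomial.map_sub, Polynomial.map_X, Polynomial.map_C]
      rfl
    rw [h3]
    exact (Polynomial.mem_lifts _).2 ⟨_, rfl⟩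
  have h3 : algebraMap E Ω (f.coeff j / f.leadingCoeff) = P.coeff j := by
    rw [map_div₀, ← Polynomial.coeff_map, h1, Polynomial.coeff_C_mul,
      mul_div_cancel_left₀ _ ((map_ne_zero (algebraMap E Ω)).2 hlead)]
  rw [Polynomial.lifts_iff_coeff_lifts] at h2
  obtain ⟨z, hz⟩ := h2 j
  have h4 : IsAlgebraic k (algebraMap E Ω (f.coeff j / f.leadingCoeff)) := by
    rw [h3, ← hz]
    exact (mem_algebraicClosure_iff).1 z.2
  exact (isAlgebraic_algebraMap_iff (algebraMap E Ω).injective).1 h4

end Pool.Agent.R323.SH
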