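import Pool.Agent.R323.SH.C
import Pool.Agent.R323.SE.B

/-!
# Abstract form
-/

set_option autoImplicit false

namespace Pool.Agent.R323.SH

open Polynomial Pool.Agent.R323.SE

section rel

variable {K₀ K : Type} [Field K₀] [Field K] [Algebra K₀ K]

theorem fin_gen [CharZero K₀] {d D : ℕ} (G : ℕ → K) (ι : Fin d → ℕ)
    (hind : AlgebraicIndependent K₀ (fun b => G (ι b)))
    (hrel : ∀ (n : ℕ) (b : Fin n → ℕ), ∃ c : (Fin d → Fin (D + 1)) × Fin (D + 1) → K₀, c ≠ 0 ∧
      ∑ e, algebraMap K₀ K (c e) * ((∏ b', G (ι b') ^ (e.1 b' : ℕ)) *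
        (∑ i, (b i : K) * G i) ^ (e.2 : ℕ)) = 0) :
    ∃ E : IntermediateField K₀ K, (⊤ : IntermediateField K₀ E).FG ∧ ∀ i, G i ∈ E := by
  classical
  obtain ⟨y, hy⟩ : ∃ y : Fin d → K, ∀ b, y b = G (ι b) := ⟨_, fun _ => rfl⟩
  have hyf : (fun b => G (ι b)) = y := funext fun b => (hy b).symm
  rw [hyf] at hind
  have hsingle : ∀ i, ∃ c : (Fin d → Fin (D + 1)) × Fin (D + 1) → K₀, c ≠ 0 ∧
      ∑ e, algebraMap K₀ K (c e) * ((∏ b', y b' ^ (e.1 b' : ℕ)) * (G i) ^ (e.2 : ℕ)) = 0 := by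
    intro i
    obtain ⟨c, hc0, hc1⟩ := hrel (i + 1) (fun j => if (j : ℕ) = i then 1 else 0)
    refine ⟨c, hc0, ?_⟩
    have h1 : (∑ j : Fin (i + 1), (((if (j : ℕ) = i then 1 else 0 : ℕ) : ℕ) : K) * G j) = G i := by
      rw [Finset.sum_eq_single (Fin.last i)]
      · simp
      · intro j _ hj
        rw [if_neg, Nat.cast_zero, zero_mul]
        intro h
        exact hj (Fin.ext h)
      · intro h
        exact absurd (Finset.mem_univ _) h
    rw [h1] at hc1
    simp only [← hy] at hc1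
    exact hc1
  obtain ⟨F, hF⟩ : ∃ F : IntermediateField K₀ K, F = IntermediateField.adjoin K₀ (Set.range y) :=
    ⟨_, rfl⟩
  have hyF : ∀ b, y b ∈ F := by
    intro b
    rw [hF]
    exact IntermediateField.subset_adjoin _ _ ⟨b, rfl⟩
  have hint : ∀ i, IsIntegral F (G i) := by
    intro i
    obtain ⟨c, hc0, hc1⟩ := hsingle i
    rw [hF]
    exact (alg_of_rel y hind (G i) c hc0 hc1).1
  have : CharZero F := charZero_of_injective_algebraMap (algebraMap K₀ F).injective
  obtain ⟨n, hn⟩ := fin_tower (F := F) G hint D (by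
    intro n c
    obtain ⟨cc, hc0, hc1⟩ := hrel n (fun i => c ^ (i : ℕ))
    simp only [← hy] at hc1
    have h1 := (alg_of_rel y hind _ cc hc0 hc1).2
    rw [← hF] at h1
    push_cast at h1
    exact h1)
  obtain ⟨n', hn'1, hn'2⟩ : ∃ n', n ≤ n' ∧ ∀ b, ι b < n' := by
    refine ⟨n + (∑ b, ι b) + 1, by omega, fun b => ?_⟩
    have := Finset.single_le_sum (f := ι) (fun _ _ => Nat.zero_le _) (Finset.mem_univ b)
    omega
  obtain ⟨E, hE⟩ : ∃ E : IntermediateField K₀ K,
      E = IntermediateField.adjoin K₀ (Set.range fun j : Fin n' => G j) := ⟨_, rfl⟩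
  have hGE' : ∀ j : Fin n', G j ∈ E := by
    intro j
    rw [hE]
    exact IntermediateField.subset_adjoin _ _ ⟨j, rfl⟩
  have hFE : F ≤ E := by
    rw [hF, IntermediateField.adjoin_le_iff]
    rintro _ ⟨b, rfl⟩
    rw [hy]
    exact hGE' ⟨ι b, hn'2 b⟩
  have hGE : ∀ i, G i ∈ E := by
    intro i
    have h1 : IntermediateField.adjoin F (Set.range fun j : Fin n => G j) ≤
        IntermediateField.extendScalars hFE := by
      rw [IntermediateField.adjoin_le_iff]
      rintro _ ⟨j, rfl⟩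
      exact hGE' ⟨j, lt_of_lt_of_le j.2 hn'1⟩
    exact h1 (hn i)
  refine ⟨E, ?_, hGE⟩
  have h2 := adjoin_val_top (fun j : Fin n' => G j) E hE (fun j => (⟨G j, hGE j⟩ : E))
    (fun _ => rfl)
  rw [← h2]
  exact IntermediateField.fg_adjoin_of_finite (Set.finite_range _)

end rel

theorem absC {O L : Type} [CommRing O] [IsDomain O] [CharZero O] [Field L] (θ : O →+* L)
    (hθ : Function.Injective θ) {d D : ℕ} (G : ℕ → L) (ι : Fin d → ℕ)
    (hind : ∀ P : MvPolynomial (Fin d) O,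
      MvPolynomial.eval₂Hom θ (fun b => G (ι b)) P = 0 → P = 0)
    (hrel : ∀ (n : ℕ) (b : Fin n → ℕ), ∃ c : (Fin d → Fin (D + 1)) × Fin (D + 1) → O, c ≠ 0 ∧
      ∑ e, θ (c e) * ((∏ b', G (ι b') ^ (e.1 b' : ℕ)) *
        (∑ i, (b i : L) * G i) ^ (e.2 : ℕ)) = 0)
    (f : L[X]) (hf : f.Separable)
    (hfG : ∀ i, f.coeff i ∈ Subfield.closure (Set.range θ ∪ Set.range G)) (x c : ℕ → L)
    (hx : Function.Injective x) (hxO : ∀ n, ∃ a b : O, b ≠ 0 ∧ x n * θ b = θ a)
    (hcG : ∀ n, c n ∈ Subfield.closure (Set.range θ ∪ Set.range G)) {m : ℕ} (hm : 2 ≤ m)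
    (hc : ∀ n, c n ^ m = f.eval (x n)) (j : ℕ) :
    ∃ p : Polynomial O, p ≠ 0 ∧ p.eval₂ θ (f.coeff j / f.leadingCoeff) = 0 := by
  let algO : Algebra O L := θ.toAlgebra
  have hfs : FaithfulSMul O L := (faithfulSMul_iff_algebraMap_injective O L).2 hθ
  let K₀ := FractionRing O
  let _alg : Algebra K₀ L := FractionRing.liftAlgebra O L
  have htow : IsScalarTower O K₀ L := FractionRing.isScalarTower_liftAlgebra O L
  have hK₀alg : Algebra.IsAlgebraic O K₀ :=
    ⟨fun z => (IsFractionRing.isAlgebraic_iff O K₀ K₀).2 (isAlgebraic_algebraMap z)⟩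
  have hθm : ∀ o, θ o = algebraMap K₀ L (algebraMap O K₀ o) := fun o => by
    rw [← IsScalarTower.algebraMap_apply]
    rfl
  have hind0 : AlgebraicIndependent O (fun b => G (ι b)) := by
    rw [algebraicIndependent_iff]
    intro P hP
    exact hind P hP
  have hind1 : AlgebraicIndependent K₀ (fun b => G (ι b)) := hind0.extendScalars K₀
  have hCZ : CharZero K₀ := charZero_of_injective_algebraMap (IsFractionRing.injective O K₀)
  obtain ⟨E, hFG, hGE⟩ := fin_gen (K₀ := K₀) (K := L) (D := D) G ι hind1 (by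
      intro n b
      obtain ⟨c, hc0, hc1⟩ := hrel n b
      refine ⟨fun e => algebraMap O K₀ (c e), ?_, ?_⟩
      · intro h
        apply hc0
        funext e
        have h1 := congrFun h e
        exact (map_eq_zero_iff _ (IsFractionRing.injective O K₀)).1 h1
      · rw [← hc1]
        refine Finset.sum_congr rfl fun e _ => ?_
        rw [hθm])
  have hcl : ∀ z, z ∈ Subfield.closure (Set.range θ ∪ Set.range G) → z ∈ E := by
    intro z hz
    have h1 : Subfield.closure (Set.range θ ∪ Set.range G) ≤ E.toSubfield := by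
      rw [Subfield.closure_le]
      rintro _ (⟨o, rfl⟩ | ⟨i, rfl⟩)
      · rw [hθm]
        exact E.algebraMap_mem _
      · exact hGE i
    exact h1 hz
  obtain ⟨f', hf'⟩ : ∃ f' : E[X], f'.map (algebraMap E L) = f := by
    have : f ∈ Polynomial.lifts (algebraMap E L) := by
      rw [Polynomial.lifts_iff_coeff_lifts]
      intro i
      exact ⟨⟨f.coeff i, hcl _ (hfG i)⟩, rfl⟩
    exact (Polynomial.mem_lifts f).1 this
  have hxK : ∀ n, ∃ y : K₀, algebraMap K₀ L y = x n := by
    intro n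
    obtain ⟨a, b, hb, hab⟩ := hxO n
    refine ⟨algebraMap O K₀ a / algebraMap O K₀ b, ?_⟩
    have hb' : θ b ≠ 0 := by
      intro h
      exact hb (hθ (by rw [h, map_zero]))
    rw [map_div₀, ← hθm, ← hθm, ← hab, mul_div_cancel_right₀ _ hb']
  choose y hy using hxK
  have h1 := ratios_algebraic hFG f' (by
    rw [← Polynomial.separable_map (algebraMap E L), hf']
    exact hf) m hm y (by
      intro i j hij
      apply hx
      rw [← hy, ← hy, hij]) (fun n => (⟨c n, hcl _ (hcG n)⟩ : E)) (by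
      intro i
      apply (algebraMap E L).injective
      rw [← Polynomial.eval_map_apply, hf', ← IsScalarTower.algebraMap_apply, hy, ← hc, map_pow]
      rfl) j
  have h2 := h1.algebraMap (A := L)
  have h3 : algebraMap E L (f'.coeff j / f'.leadingCoeff) = f.coeff j / f.leadingCoeff := by
    rw [map_div₀, ← Polynomial.coeff_map, ← Polynomial.leadingCoeff_map, hf']
  rw [h3] at h2
  obtain ⟨p, hp0, hp⟩ := (IsFractionRing.isAlgebraic_iff O K₀ L).2 h2
  exact ⟨p, hp0, hp⟩

end Pool.Agent.R323.SH
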