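import Pool.Agent.R323.SE.D

/-!
# Squarefree polynomials over the field of internal functions
-/

set_option autoImplicit false

namespace Pool.Agent.R323.SH

open Filter Pool.Agent.R323.SE Pool.Agent.Y902.GN Pool.Agent.R323

/-- the polynomial with coefficients `t` -/
noncomputable def ply {d : ℕ} (t : Fin (d + 1) → ℤ) : Polynomial ℚ :=
  ∑ j : Fin (d + 1), Polynomial.C (t j : ℚ) * Polynomial.X ^ (j : ℕ)

theorem ply_coeff {d : ℕ} (t : Fin (d + 1) → ℤ) (j : Fin (d + 1)) :
    (ply t).coeff (j : ℕ) = (t j : ℚ) := by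
  unfold ply
  rw [Polynomial.finsetSum_coeff, Finset.sum_eq_single j]
  · rw [Polynomial.coeff_C_mul, Polynomial.coeff_X_pow, if_pos rfl, mul_one]
  · intro i _ hi
    rw [Polynomial.coeff_C_mul, Polynomial.coeff_X_pow, if_neg, mul_zero]
    intro h
    exact hi (Fin.ext h.symm)
  · intro h
    exact absurd (Finset.mem_univ _) h

theorem ply_natDegree {d : ℕ} (t : Fin (d + 1) → ℤ) : (ply t).natDegree ≤ d := by
  unfold ply
  refine Polynomial.natDegree_sum_le_of_forall_le _ _ fun i _ => ?_
  exact (Polynomial.natDegree_C_mul_X_pow_le _ _).trans (by omega)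

theorem ply_eval {d : ℕ} (t : Fin (d + 1) → ℤ) (x : ℚ) :
    (ply t).eval x = ∑ j : Fin (d + 1), (t j : ℚ) * x ^ (j : ℕ) := by
  unfold ply
  rw [Polynomial.eval_finsetSum]
  refine Finset.sum_congr rfl fun j _ => ?_
  rw [Polynomial.eval_mul, Polynomial.eval_C, Polynomial.eval_pow, Polynomial.eval_X]

section

variable {α : Type} {W : Ultrafilter (ℕ × α)}

/-- germs, as a ring homomorphism -/
noncomputable def gmH (W : Ultrafilter (ℕ × α)) : (ℕ × α → ℚ) →+* LL W where
  toFun := gm W
  map_one' := gm_one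
  map_zero' := gm_zero.2 (Filter.Eventually.of_forall fun _ => rfl)
  map_mul' := fun f g => gm_mul f g
  map_add' := fun f g => gm_add f g

theorem gmH_surj : Function.Surjective (gmH W) := by
  intro z
  obtain ⟨f, hf⟩ := gm_ex z
  exact ⟨f, hf.symm⟩

theorem map_zero_ev (P : Polynomial (ℕ × α → ℚ)) (h : P.map (gmH W) = 0) :
    ∀ᶠ x in (W : Filter (ℕ × α)), P.map (Pi.evalRingHom (fun _ => ℚ) x) = 0 := by
  have h1 : ∀ i ∈ Finset.range (P.natDegree + 1), ∀ᶠ x in (W : Filter (ℕ × α)),
      (P.coeff i) x = 0 := by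
    intro i _
    have h2 : gmH W (P.coeff i) = 0 := by rw [← Polynomial.coeff_map, h, Polynomial.coeff_zero]
    exact gm_zero.1 h2
  have h2 : ∀ᶠ x in (W : Filter (ℕ × α)), ∀ i ∈ Finset.range (P.natDegree + 1),
      (P.coeff i) x = 0 := (Filter.eventually_all_finset _).2 h1
  filter_upwards [h2] with x hx
  ext i
  rw [Polynomial.coeff_map, Polynomial.coeff_zero, Pi.evalRingHom_apply]
  by_cases hi : i ∈ Finset.range (P.natDegree + 1)
  · exact hx i hi
  · rw [Finset.mem_range, not_lt] at hi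
    rw [Polynomial.coeff_eq_zero_of_natDegree_lt (by omega)]
    rfl

theorem sqfree_transfer {d : ℕ} {W : Ultrafilter (ℕ × (Fin (d + 1) → ℤ))} (f : Polynomial (LL W))
    (hf : f = ∑ j : Fin (d + 1), Polynomial.C (gm W fun x => ((x.2 j : ℤ) : ℚ)) *
      Polynomial.X ^ (j : ℕ))
    (h : ∀ᶠ x in (W : Filter (ℕ × (Fin (d + 1) → ℤ))), Squarefree (ply x.2)) : f.Separable := by
  classical
  have : Squarefree f := by
    by_contra hcon
    have h1 : ∃ g : Polynomial (LL W), g * g ∣ f ∧ ¬ IsUnit g := by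
      unfold Squarefree at hcon
      push Not at hcon
      exact hcon
    obtain ⟨g, ⟨r, hr⟩, hg⟩ := h1
    obtain ⟨F, hF⟩ : ∃ F : Polynomial (ℕ × (Fin (d + 1) → ℤ) → ℚ), F =
        ∑ j : Fin (d + 1), Polynomial.C (fun x => ((x.2 j : ℤ) : ℚ)) * Polynomial.X ^ (j : ℕ) :=
      ⟨_, rfl⟩
    have hFf : F.map (gmH W) = f := by
      rw [hF, hf, Polynomial.map_sum]
      refine Finset.sum_congr rfl fun j _ => ?_
      rw [Polynomial.map_mul, Polynomial.map_pow, Polynomial.map_X, Polynomial.map_C]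
      rfl
    have hFx : ∀ x, F.map (Pi.evalRingHom (fun _ => ℚ) x) = ply x.2 := by
      intro x
      rw [hF, Polynomial.map_sum]
      unfold ply
      refine Finset.sum_congr rfl fun j _ => ?_
      rw [Polynomial.map_mul, Polynomial.map_pow, Polynomial.map_X, Polynomial.map_C]
      rfl
    obtain ⟨G, rfl⟩ := Polynomial.map_surjective (gmH W) gmH_surj g
    obtain ⟨R, rfl⟩ := Polynomial.map_surjective (gmH W) gmH_surj r
    have h2 : (F - G * G * R).map (gmH W) = 0 := by
      rw [Polynomial.map_sub, Polynomial.map_mul, Polynomial.map_mul, hFf, hr, sub_self]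
    have h3 := map_zero_ev _ h2
    by_cases hf0 : f = 0
    · -- the zero polynomial
      rw [← hFf] at hf0
      have h4 := map_zero_ev _ hf0
      obtain ⟨x, h5, h6⟩ := (h4.and h).exists
      rw [hFx] at h5
      rw [h5] at h6
      exact not_squarefree_zero h6
    have hg0 : G.map (gmH W) ≠ 0 := by
      intro h0
      apply hf0
      rw [hr, h0, zero_mul, zero_mul]
    have hdeg : 1 ≤ (G.map (gmH W)).natDegree := by
      rw [Nat.one_le_iff_ne_zero]
      intro h0
      apply hg
      rw [Polynomial.eq_C_of_natDegree_eq_zero h0] at hg0 ⊢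
      rw [Polynomial.isUnit_C, isUnit_iff_ne_zero]
      intro h5
      exact hg0 (by rw [h5, Polynomial.C_0])
    have h4 : gmH W (G.coeff (G.map (gmH W)).natDegree) ≠ 0 := by
      rw [← Polynomial.coeff_map, Polynomial.coeff_natDegree]
      exact Polynomial.leadingCoeff_ne_zero.2 hg0
    have h5 : ∀ᶠ x in (W : Filter (ℕ × (Fin (d + 1) → ℤ))),
        G.coeff (G.map (gmH W)).natDegree x ≠ 0 :=
      Ultrafilter.eventually_not.2 fun h6 => h4 (gm_zero.2 h6)
    obtain ⟨x, h6, h7, h8⟩ := (h3.and (h5.and h)).exists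
    rw [Polynomial.map_sub, Polynomial.map_mul, Polynomial.map_mul, hFx, sub_eq_zero] at h6
    have h9 := h8 (G.map (Pi.evalRingHom (fun _ => ℚ) x)) (Dvd.intro _ h6.symm)
    have h10 := Polynomial.natDegree_eq_zero_of_isUnit h9
    have h11 : (G.map (gmH W)).natDegree ≤ (G.map (Pi.evalRingHom (fun _ => ℚ) x)).natDegree := by
      refine Polynomial.le_natDegree_of_ne_zero ?_
      rw [Polynomial.coeff_map, Pi.evalRingHom_apply]
      exact h7
    omega
  exact PerfectField.separable_iff_squarefree.2 this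

end

end Pool.Agent.R323.SH
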