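import Pool.Agent.R323.SH.D
import Pool.Agent.R323.SH.E

/-!
# The core theorem
-/

set_option autoImplicit false

namespace Pool.Agent.R323.SH

open Filter MvPolynomial Pool.Agent.Y902.GN Pool.Agent.R323 Pool.Agent.R323.SE

theorem core {d n : ℕ} (hn : 2 ≤ n) {Y : ℕ → ℕ}
    (hY : ∀ m : ℕ, ∀ᶠ ν in (Uf : Filter ℕ), m ≤ Y ν)
    {Om₀ : ℕ → Finset (Fin (d + 1) → ℤ)} (hbig : Big Y Om₀)
    (e p : ℕ → ℕ → ℤ) (z : ℕ → ℕ → (Fin (d + 1) → ℤ) → ℤ)
    (he0 : ∀ i, ∀ᶠ ν in (Uf : Filter ℕ), e i ν ≠ 0)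
    (heb : ∀ i, ∀ᶠ ν in (Uf : Filter ℕ), |e i ν| ≤ (Y ν : ℤ))
    (hpb : ∀ i, ∀ᶠ ν in (Uf : Filter ℕ), |p i ν| ≤ (Y ν : ℤ))
    (hsq₀ : ∀ᶠ ν in (Uf : Filter ℕ), ∀ t ∈ Om₀ ν, Squarefree (ply t))
    (htb₀ : ∀ᶠ ν in (Uf : Filter ℕ), ∀ t ∈ Om₀ ν, ∀ j, (t j) ^ 2 ≤ (Y ν : ℤ))
    (hzb₀ : ∀ i, ∀ᶠ ν in (Uf : Filter ℕ), ∀ t ∈ Om₀ ν, (z i ν t) ^ 2 ≤ (Y ν : ℤ))
    (hval₀ : ∀ i, ∀ᶠ ν in (Uf : Filter ℕ), ∀ t ∈ Om₀ ν,
      (z i ν t) ^ n = ∑ j : Fin (d + 1), t j * ((p i ν) ^ (j : ℕ) * (e i ν) ^ (d * n - (j : ℕ))))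
    (hne₀ : ∀ i j, i ≠ j → ∀ᶠ ν in (Uf : Filter ℕ), p i ν * e j ν ≠ p j ν * e i ν) :
    ∀ᶠ ν in (Uf : Filter ℕ), ∃ t ∈ Om₀ ν, ∃ t' ∈ Om₀ ν, t ≠ t' ∧
      ∃ l : ℚ, l ≠ 0 ∧ ply t' = Polynomial.C l * ply t := by
  classical
  obtain ⟨Om, hsub, hG⟩ := Gen.ex hbig
  obtain ⟨m, hm⟩ := hG.1
  have hne := hG.1.nonempty
  obtain ⟨W, hW⟩ := exists_W Om hne
  have hφ := hW.fst hne
  -- properties on the ultrafilter
  have toW : ∀ {q : ℕ → (Fin (d + 1) → ℤ) → Prop},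
      (∀ᶠ ν in (Uf : Filter ℕ), ∀ t ∈ Om₀ ν, q ν t) →
      ∀ᶠ x in (W : Filter (ℕ × (Fin (d + 1) → ℤ))), q x.1 x.2 := by
    intro q hq
    filter_upwards [hφ.eventually hq, hφ.eventually hsub, hW.mem hne] with x h1 h2 h3
    exact h1 _ (h2 h3)
  have heW : ∀ i, ∀ᶠ x in (W : Filter (ℕ × (Fin (d + 1) → ℤ))), e i x.1 ≠ 0 :=
    fun i => hφ.eventually (he0 i)
  obtain ⟨d', ι, hind, halg⟩ := basis_alg (OO Y) (d + 1) (JI Y Om) (hG.isPrime hY)
    (fun c hc => C_notMem hG.1 hc)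
  obtain ⟨D, hD⟩ := rel_LL d' m
  obtain ⟨g, hgdef⟩ : ∃ g : ℕ → ℕ × (Fin (d + 1) → ℤ) → ℤ, g = fun i x =>
      if h : i < d + 1 then x.2 ⟨i, h⟩ else z (i - (d + 1)) x.1 x.2 := ⟨_, rfl⟩
  have hg : ∀ (j : Fin (d + 1)) ν t, g (j : ℕ) (ν, t) = t j := by
    intro j ν t
    rw [hgdef]
    simp only [j.2, dif_pos]
  have hg' : ∀ (j : Fin (d + 1)), g (j : ℕ) = fun x => x.2 j := by
    intro j
    funext x
    exact hg j x.1 x.2
  have hgz : ∀ i, g (d + 1 + i) = fun x => z i x.1 x.2 := by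
    intro i
    funext x
    rw [hgdef]
    show (if h : d + 1 + i < d + 1 then x.2 ⟨d + 1 + i, h⟩ else z (d + 1 + i - (d + 1)) x.1 x.2) = _
    rw [dif_neg (by omega), Nat.add_sub_cancel_left]
  obtain ⟨φ₁, hφ₁⟩ : ∃ φ₁, φ₁ = evu Y hφ (bs (N := d + 1)) := ⟨_, rfl⟩
  obtain ⟨φ₀, hφ₀⟩ : ∃ φ₀ : MvPolynomial (Fin d') (OO Y) →+* LL W, φ₀ = φ₁.comp
      (rename ι : MvPolynomial (Fin d') (OO Y) →ₐ[OO Y] _).toRingHom := ⟨_, rfl⟩
  have hinj₀ : Function.Injective φ₀ := by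
    rw [injective_iff_map_eq_zero]
    intro P hP
    rw [hφ₀, hφ₁] at hP
    exact hind P ((ker_base hG hW hφ hY _).2 hP)
  have hT : ∀ j, φ₁ (X j) = gm W fun x => ((x.2 j : ℤ) : ℚ) := by
    intro j
    rw [hφ₁, evu_X]
    rfl
  have hbase : ∀ j, IsAlgebraic φ₀.range (φ₁ (X j)) := by
    intro j
    obtain ⟨q, hq0, hq⟩ := halg j
    refine alg_of_poly φ₀ (p := q) ?_ ?_
    · intro h
      apply hq0
      apply Polynomial.map_injective _ hinj₀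
      rw [h, Polynomial.map_zero]
    · have h1 := (ker_base hG hW hφ hY _).1 hq
      rw [← hφ₁, Polynomial.hom_eval₂, ← hφ₀] at h1
      exact h1
  have hall : ∀ r, IsAlgebraic φ₀.range (φ₁ r) := by
    intro r
    induction r using MvPolynomial.induction_on with
    | C c =>
      have h1 : φ₁ (C c) = φ₀ (C c) := by
        rw [hφ₀, RingHom.comp_apply]
        show _ = φ₁ (rename ι (C c))
        rw [rename_C]
      rw [h1]
      exact isAlgebraic_algebraMap (⟨φ₀ (C c), ⟨C c, rfl⟩⟩ : φ₀.range)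
    | add P Q hP hQ =>
      rw [map_add]
      exact hP.add hQ
    | mul_X P i hP =>
      rw [map_mul]
      exact hP.mul (hbase i)
  -- the constants
  obtain ⟨eO, heO⟩ : ∃ eO : ℕ → OO Y, ∀ i, ((eO i : OO Y) : ZS) = ((e i : ℕ → ℤ) : ZS) := by
    refine ⟨fun i => ⟨((e i : ℕ → ℤ) : ZS), mem_OO.2 ⟨1, ?_⟩⟩, fun i => rfl⟩
    filter_upwards [heb i] with ν h
    rw [pow_one]; omega
  obtain ⟨pO, hpO⟩ : ∃ pO : ℕ → OO Y, ∀ i, ((pO i : OO Y) : ZS) = ((p i : ℕ → ℤ) : ZS) := by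
    refine ⟨fun i => ⟨((p i : ℕ → ℤ) : ZS), mem_OO.2 ⟨1, ?_⟩⟩, fun i => rfl⟩
    filter_upwards [hpb i] with ν h
    rw [pow_one]; omega
  obtain ⟨θ, hθ⟩ : ∃ θ : OO Y →+* LL W, θ = (ps W hφ).comp (OO Y).subtype := ⟨_, rfl⟩
  have hθe : ∀ i, θ (eO i) = gm W fun x => ((e i x.1 : ℤ) : ℚ) := by
    intro i
    rw [hθ, RingHom.comp_apply, Subring.coe_subtype, heO, ps_coe]
  have hθp : ∀ i, θ (pO i) = gm W fun x => ((p i x.1 : ℤ) : ℚ) := by
    intro i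
    rw [hθ, RingHom.comp_apply, Subring.coe_subtype, hpO, ps_coe]
  have hθC : ∀ c, φ₁ (C c) = θ c := by
    intro c
    rw [hφ₁, evu_C, hθ, RingHom.comp_apply, Subring.coe_subtype]
  have hθinj : Function.Injective θ := by
    rw [hθ]
    exact (ps_inj hφ).comp Subtype.val_injective
  -- the field elements
  obtain ⟨G, hGd⟩ : ∃ G : ℕ → LL W, ∀ i, G i = gm W fun x => ((g i x : ℤ) : ℚ) := ⟨_, fun _ => rfl⟩
  have hGT : ∀ j : Fin (d + 1), G (j : ℕ) = gm W fun x => ((x.2 j : ℤ) : ℚ) := by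
    intro j
    rw [hGd, hg']
  have hGz : ∀ i, G (d + 1 + i) = gm W fun x => ((z i x.1 x.2 : ℤ) : ℚ) := by
    intro i
    rw [hGd, hgz]
  obtain ⟨f, hf⟩ : ∃ f : Polynomial (LL W), f = ∑ j : Fin (d + 1),
      Polynomial.C (gm W fun x => ((x.2 j : ℤ) : ℚ)) * Polynomial.X ^ (j : ℕ) := ⟨_, rfl⟩
  have hfcoeff : ∀ j : Fin (d + 1), f.coeff (j : ℕ) = gm W fun x => ((x.2 j : ℤ) : ℚ) := by
    intro j
    rw [hf, Polynomial.finsetSum_coeff, Finset.sum_eq_single j]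
    · rw [Polynomial.coeff_C_mul, Polynomial.coeff_X_pow, if_pos rfl, mul_one]
    · intro i _ hi
      rw [Polynomial.coeff_C_mul, Polynomial.coeff_X_pow, if_neg, mul_zero]
      intro h
      exact hi (Fin.ext h.symm)
    · intro h
      exact absurd (Finset.mem_univ _) h
  have hfle : f.natDegree ≤ d := by
    rw [hf]
    refine Polynomial.natDegree_sum_le_of_forall_le _ _ fun i _ => ?_
    exact (Polynomial.natDegree_C_mul_X_pow_le _ _).trans (by omega)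
  have hsep : f.Separable := sqfree_transfer f hf (toW hsq₀)
  have hE : ∀ i, θ (eO i) ≠ 0 := by
    intro i h
    rw [hθe, gm_zero] at h
    obtain ⟨x, h1, h2⟩ := (h.and (heW i)).exists
    exact h2 (by exact_mod_cast h1)
  -- the equation
  have heq : ∀ i, G (d + 1 + i) ^ n = ∑ j : Fin (d + 1), (gm W fun x => ((x.2 j : ℤ) : ℚ)) *
      (θ (pO i) ^ (j : ℕ) * θ (eO i) ^ (d * n - (j : ℕ))) := by
    intro i
    rw [hGz, hθp, hθe]
    have h1 : ∀ j : Fin (d + 1), (gm W fun x => ((x.2 j : ℤ) : ℚ)) *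
      ((gm W fun x => ((p i x.1 : ℤ) : ℚ)) ^ (j : ℕ) *
        (gm W fun x => ((e i x.1 : ℤ) : ℚ)) ^ (d * n - (j : ℕ))) =
        gm W fun x => ((x.2 j : ℤ) : ℚ) * (((p i x.1 : ℤ) : ℚ) ^ (j : ℕ) *
          ((e i x.1 : ℤ) : ℚ) ^ (d * n - (j : ℕ))) := by
      intro j
      rw [gm_mul, gm_mul, gm_pow, gm_pow]
    rw [Finset.sum_congr rfl fun j _ => h1 j, ← gm_sum, ← gm_pow, gm_eq]
    filter_upwards [toW (hval₀ i)] with x h2
    exact_mod_cast h2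
  -- algebraicity
  have hzalg : ∀ i, IsAlgebraic φ₀.range (G (d + 1 + i)) := by
    intro i
    obtain ⟨Q, hQ⟩ : ∃ Q : MvPolynomial (Fin (d + 1)) (OO Y), Q = ∑ j : Fin (d + 1),
        X j * C ((pO i) ^ (j : ℕ) * (eO i) ^ (d * n - (j : ℕ))) := ⟨_, rfl⟩
    have hQ' : φ₁ Q = G (d + 1 + i) ^ n := by
      rw [hQ, map_sum, heq]
      refine Finset.sum_congr rfl fun j _ => ?_
      rw [map_mul, hT, hθC, map_mul, map_pow, map_pow]
    refine trans_alg φ₀ φ₁ hall (Polynomial.X ^ n - Polynomial.C Q) ?_ ?_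
    · rw [Polynomial.map_sub, Polynomial.map_pow, Polynomial.map_X, Polynomial.map_C]
      exact (Polynomial.monic_X_pow_sub_C _ (by omega)).ne_zero
    · rw [Polynomial.eval₂_sub, Polynomial.eval₂_pow, Polynomial.eval₂_X, Polynomial.eval₂_C, hQ',
        sub_self]
  have hGalg : ∀ i, IsAlgebraic φ₀.range (G i) := by
    intro i
    by_cases hi : i < d + 1
    · have h1 := hbase ⟨i, hi⟩
      rw [hT] at h1
      have h2 := hGT ⟨i, hi⟩
      rw [show ((⟨i, hi⟩ : Fin (d + 1)) : ℕ) = i from rfl] at h2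
      rw [h2]
      exact h1
    · obtain ⟨j, rfl⟩ : ∃ j, i = d + 1 + j := ⟨i - (d + 1), by omega⟩
      exact hzalg j
  have halg3 : ∀ i, ∃ q : Polynomial (MvPolynomial (Fin d') (OO Y)), q ≠ 0 ∧
      q.eval₂ ((evu Y hφ (bs (N := d + 1))).comp
        (rename ι : MvPolynomial (Fin d') (OO Y) →ₐ[OO Y] _).toRingHom)
        (gm W fun x => ((g i x : ℤ) : ℚ)) = 0 := by
    intro i
    obtain ⟨q, h1, h2⟩ := poly_of_alg φ₀ (hGalg i)
    refine ⟨q, ?_, ?_⟩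
    · rintro rfl
      exact h1 (Polynomial.map_zero _)
    · rw [hφ₀, hφ₁, hGd] at h2
      exact h2
  have hb : ∀ i, ∀ᶠ ν in (Uf : Filter ℕ), ∀ t ∈ Om ν, (g i (ν, t)) ^ 2 ≤ (Y ν : ℤ) := by
    intro i
    by_cases hi : i < d + 1
    · filter_upwards [htb₀, hsub] with ν h1 h2 t ht
      have h3 := hg ⟨i, hi⟩ ν t
      rw [show ((⟨i, hi⟩ : Fin (d + 1)) : ℕ) = i from rfl] at h3
      rw [h3]
      exact h1 t (h2 ht) _
    · obtain ⟨j, rfl⟩ : ∃ j, i = d + 1 + j := ⟨i - (d + 1), by omega⟩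
      filter_upwards [hzb₀ j, hsub] with ν h1 h2 t ht
      rw [hgz]
      exact h1 t (h2 ht)
  have hrel := hD Y (d + 1) Om W hφ hY hG hm hW g hg hb ι hind halg3
  obtain ⟨x, hx⟩ : ∃ x : ℕ → LL W, ∀ i, x i = θ (pO i) / θ (eO i) := ⟨_, fun _ => rfl⟩
  have hxinj : Function.Injective x := by
    intro i j hij
    by_contra hne'
    rw [hx, hx, div_eq_div_iff (hE i) (hE j), hθp, hθp, hθe, hθe, ← gm_mul, ← gm_mul, gm_eq] at hij
    obtain ⟨y, h1, h2⟩ := (hij.and (hφ.eventually (hne₀ i j hne'))).exists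
    exact h2 (by exact_mod_cast h1)
  have hfeval : ∀ y : LL W, f.eval y = ∑ j : Fin (d + 1), (gm W fun x => ((x.2 j : ℤ) : ℚ)) *
      y ^ (j : ℕ) := by
    intro y
    rw [hf, Polynomial.eval_finsetSum]
    refine Finset.sum_congr rfl fun j _ => ?_
    rw [Polynomial.eval_mul, Polynomial.eval_C, Polynomial.eval_pow, Polynomial.eval_X]
  have hmemG : ∀ i, G i ∈ Subfield.closure (Set.range θ ∪ Set.range G) := fun i =>
    Subfield.subset_closure (Or.inr ⟨_, rfl⟩)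
  have hmemθ : ∀ o, θ o ∈ Subfield.closure (Set.range θ ∪ Set.range G) := fun o =>
    Subfield.subset_closure (Or.inl ⟨_, rfl⟩)
  have hrat := absC (O := OO Y) (L := LL W) θ hθinj (D := D) G
    (fun b => ((ι b : Fin (d + 1)) : ℕ)) (by
      intro P hP
      apply hinj₀
      rw [map_zero, ← hP]
      have h1 : φ₀ = eval₂Hom θ (fun b => G ((ι b : Fin (d + 1)) : ℕ)) := by
        refine MvPolynomial.ringHom_ext (fun c => ?_) (fun j => ?_)
        · rw [hφ₀, RingHom.comp_apply, coe_eval₂Hom, eval₂_C]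
          show φ₁ (rename ι (C c)) = _
          rw [rename_C, hθC]
        · rw [hφ₀, RingHom.comp_apply, coe_eval₂Hom, eval₂_X]
          show φ₁ (rename ι (X j)) = _
          rw [rename_X, hT, hGT]
      rw [h1]) (by
      intro n b
      obtain ⟨c, hc0, hc1⟩ := hrel n b
      refine ⟨c, hc0, ?_⟩
      rw [← hc1]
      refine Finset.sum_congr rfl fun e1 _ => ?_
      simp only [hGd, hθ]
      rfl) f hsep (by
      intro i
      by_cases hi : i < d + 1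
      · have h1 := hfcoeff ⟨i, hi⟩
        rw [show ((⟨i, hi⟩ : Fin (d + 1)) : ℕ) = i from rfl] at h1
        rw [h1, ← hGT]
        exact hmemG _
      · rw [Polynomial.coeff_eq_zero_of_natDegree_lt (by omega)]
        exact zero_mem _) x (fun i => G (d + 1 + i) / θ (eO i) ^ d) hxinj (by
      intro i
      refine ⟨pO i, eO i, ?_, ?_⟩
      · intro h
        exact hE i (by rw [h, map_zero])
      · rw [hx, div_mul_cancel₀ _ (hE i)]) (by
      intro i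
      exact div_mem (hmemG _) (pow_mem (hmemθ _) _)) hn (by
      intro i
      rw [div_pow, heq, hfeval, hx, Finset.sum_div]
      refine Finset.sum_congr rfl fun j _ => ?_
      have h1 : (j : ℕ) ≤ d * n := by
        have := j.2
        nlinarith
      have h2 : (θ (eO i) ^ d) ^ n = θ (eO i) ^ (d * n - (j : ℕ)) * θ (eO i) ^ (j : ℕ) := by
        rw [← pow_mul, ← pow_add]
        congr 1
        omega
      rw [h2, div_pow]
      have h3 := hE i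
      field_simp)
  -- the leading coefficient
  have hlead : f.leadingCoeff ≠ 0 := Polynomial.leadingCoeff_ne_zero.2 hsep.ne_zero
  obtain ⟨j₀, hj₀⟩ : ∃ j₀ : Fin (d + 1), f.leadingCoeff = gm W fun x => ((x.2 j₀ : ℤ) : ℚ) :=
    ⟨⟨f.natDegree, by omega⟩, hfcoeff ⟨f.natDegree, by omega⟩⟩
  have hleadW : ∀ᶠ x in (W : Filter (ℕ × (Fin (d + 1) → ℤ))), x.2 j₀ ≠ 0 := by
    refine Ultrafilter.eventually_not.2 fun h => hlead ?_
    rw [hj₀, gm_zero]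
    filter_upwards [h] with x hx
    rw [hx]
    simp
  -- few values
  have hfew : ∀ j : Fin (d + 1), ∃ n : ℕ, ∃ A ∈ W, ∀ᶠ ν in (Uf : Filter ℕ), ∃ R : Finset ℚ,
      R.card ≤ n ∧ ∀ t, (ν, t) ∈ A → ((t j : ℤ) : ℚ) / ((t j₀ : ℤ) : ℚ) ∈ R := by
    intro j
    obtain ⟨q, hq0, hq⟩ := hrat (j : ℕ)
    rw [hfcoeff, hj₀, ← gm_div, hθ] at hq
    exact ⟨_, few_LL hφ hq0 hq⟩
  choose N A hA hR using hfew
  obtain ⟨K, hK⟩ : ∃ K, ∀ j, N j ≤ K :=
    ⟨∑ j, N j, fun j => Finset.single_le_sum (fun _ _ => Nat.zero_le _) (Finset.mem_univ j)⟩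
  have hAA : (⋂ j, A j) ∩ {x | x.2 j₀ ≠ 0} ∈ W := Filter.inter_mem ((Filter.iInter_mem).2 hA) hleadW
  obtain ⟨kk, hkk⟩ := hW _ hAA
  filter_upwards [hsub, hkk, Big.card_large hY hG.1 (kk * K ^ (d + 1)),
    Filter.eventually_all.2 hR] with ν h1 h2 h3 h4
  choose R hR1 hR2 using h4
  have h7 : K ^ (d + 1) < (slc Om ((⋂ j, A j) ∩ {x | x.2 j₀ ≠ 0}) ν).card := by
    by_contra hcon
    push Not at hcon
    have := Nat.mul_le_mul_left kk hcon
    omega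
  have h8 : (Fintype.piFinset R).card ≤ K ^ (d + 1) := by
    rw [Fintype.card_piFinset]
    calc ∏ i, (R i).card ≤ ∏ _i : Fin (d + 1), K :=
          Finset.prod_le_prod (fun _ _ => Nat.zero_le _) fun i _ => (hR1 i).trans (hK i)
      _ = K ^ (d + 1) := by rw [Finset.prod_const, Finset.card_univ, Fintype.card_fin]
  obtain ⟨t, ht, t', ht', hne', heq'⟩ := Finset.exists_ne_map_eq_of_card_lt_of_maps_to
    (lt_of_le_of_lt h8 h7) (f := fun t => fun j : Fin (d + 1) =>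
      ((t j : ℤ) : ℚ) / ((t j₀ : ℤ) : ℚ)) (by
      intro t ht
      rw [Finset.mem_coe, Fintype.mem_piFinset]
      intro j
      have h9 := (mem_slc.1 (Finset.mem_coe.1 ht)).2.1
      exact hR2 j t (Set.mem_iInter.1 h9 j))
  have ht0 : ((t j₀ : ℤ) : ℚ) ≠ 0 := by
    have := (mem_slc.1 ht).2.2
    exact_mod_cast this
  have ht0' : ((t' j₀ : ℤ) : ℚ) ≠ 0 := by
    have := (mem_slc.1 ht').2.2
    exact_mod_cast this
  refine ⟨t, h1 (mem_slc.1 ht).1, t', h1 (mem_slc.1 ht').1, hne',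
    ((t' j₀ : ℤ) : ℚ) / ((t j₀ : ℤ) : ℚ), div_ne_zero ht0' ht0, ?_⟩
  unfold ply
  rw [Finset.mul_sum]
  refine Finset.sum_congr rfl fun j _ => ?_
  rw [← mul_assoc, ← Polynomial.C_mul]
  congr 2
  have h9 : ((t j : ℤ) : ℚ) / ((t j₀ : ℤ) : ℚ) = ((t' j : ℤ) : ℚ) / ((t' j₀ : ℤ) : ℚ) :=
    congrFun heq' j
  rw [div_eq_div_iff ht0 ht0'] at h9
  rw [div_mul_eq_mul_div, eq_div_iff ht0]
  linear_combination -h9

end Pool.Agent.R323.SH
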