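import Pool.Agent.R323.SH.F
import Pool.Agent.R323.SE.N

/-!
# Points with coordinates in a small set
-/

set_option autoImplicit false

namespace Pool.Agent.R323.SH

open Filter Pool.Agent.Y902.GN Pool.Agent.R323 Pool.Agent.R323.SE

theorem int_pow {q : ℚ} {n : ℕ} (hn : 0 < n) {M : ℤ} (h : q ^ n = (M : ℚ)) : ∃ z : ℤ, (z : ℚ) = q := by
  have h1 : IsIntegral ℤ (q ^ n) := by
    rw [h]
    exact isIntegral_algebraMap (R := ℤ) (x := M)
  have h2 : IsIntegral ℤ q := IsIntegral.of_pow hn h1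
  obtain ⟨z, hz⟩ := IsIntegrallyClosed.isIntegral_iff.1 h2
  exact ⟨z, by rw [← hz]; rfl⟩

theorem ply_scaled {d n : ℕ} (hn : 1 ≤ n) (t : Fin (d + 1) → ℤ) (x : ℚ) :
    ((x.den : ℚ) ^ d) ^ n * (ply t).eval x =
      ((∑ j : Fin (d + 1), t j * (x.num ^ (j : ℕ) * (x.den : ℤ) ^ (d * n - (j : ℕ))) : ℤ) : ℚ) := by
  rw [ply_eval, Finset.mul_sum]
  push_cast
  refine Finset.sum_congr rfl fun j _ => ?_
  have h1 : (j : ℕ) ≤ d * n := by
    have := j.2
    nlinarith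
  have h2 : ((x.den : ℚ) ^ d) ^ n = (x.den : ℚ) ^ (d * n - (j : ℕ)) * (x.den : ℚ) ^ (j : ℕ) := by
    rw [← pow_mul, ← pow_add]
    congr 1
    omega
  have h3 : x ^ (j : ℕ) * (x.den : ℚ) ^ (j : ℕ) = (x.num : ℚ) ^ (j : ℕ) := by
    rw [← mul_pow, Rat.mul_den_eq_num]
  rw [h2, ← h3]
  ring

theorem ply_bound {d n : ℕ} (hn : 1 ≤ n) (t : Fin (d + 1) → ℤ) (x : ℚ) {Y M : ℕ} (hM : 1 ≤ M)
    (ht : ∀ j, |t j| ≤ (Y : ℤ)) (hx : |x.num| ≤ (M : ℤ)) (hx' : ((x.den : ℕ) : ℤ) ≤ (M : ℤ)) :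
    |∑ j : Fin (d + 1), t j * (x.num ^ (j : ℕ) * (x.den : ℤ) ^ (d * n - (j : ℕ)))| ≤
      (((d + 1) * (Y * M ^ (d * n)) : ℕ) : ℤ) := by
  have hY0 : (0 : ℤ) ≤ (Y : ℤ) := by positivity
  have hM0 : (0 : ℤ) ≤ (M : ℤ) := by positivity
  have hden0 : (0 : ℤ) ≤ (x.den : ℤ) := by positivity
  calc _ ≤ ∑ j : Fin (d + 1), |t j * (x.num ^ (j : ℕ) * (x.den : ℤ) ^ (d * n - (j : ℕ)))| :=
        Finset.abs_sum_le_sum_abs _ _
    _ ≤ ∑ _j : Fin (d + 1), (Y : ℤ) * (M : ℤ) ^ (d * n) := by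
        refine Finset.sum_le_sum fun j _ => ?_
        have hj : (j : ℕ) ≤ d * n := by
          have := j.2
          nlinarith
        rw [abs_mul, abs_mul, abs_pow, abs_pow, abs_of_nonneg hden0]
        have e1 : (M : ℤ) ^ (d * n) = (M : ℤ) ^ (j : ℕ) * (M : ℤ) ^ (d * n - (j : ℕ)) := by
          rw [← pow_add]
          congr 1
          omega
        rw [e1]
        exact mul_le_mul (ht _) (mul_le_mul (pow_le_pow_left₀ (abs_nonneg _) hx _)
          (pow_le_pow_left₀ hden0 hx' _) (pow_nonneg hden0 _) (pow_nonneg hM0 _))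
          (mul_nonneg (pow_nonneg (abs_nonneg _) _) (pow_nonneg hden0 _)) hY0
    _ = _ := by
        rw [Finset.sum_const, Finset.card_univ, Fintype.card_fin, nsmul_eq_mul]
        push_cast
        ring

/-- more than `N` points -/
def Many (N n : ℕ) (V : Finset ℚ) {d : ℕ} (t : Fin (d + 1) → ℤ) : Prop :=
  ∃ P : Finset ℚ, N < P.card ∧ ∀ x ∈ P, x ∈ V ∧ ∃ y : ℚ, y ≠ 0 ∧ y ^ n = (ply t).eval x

/-- **Points with coordinates in a small set.** -/
theorem small_points (d n : ℕ) (hn : 2 ≤ n) (B : ℕ) (ε : ℝ) (hε : 0 < ε) :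
    ∃ (N : ℕ) (δ C : ℝ), 0 < δ ∧ ∀ Y : ℕ, 1 ≤ Y → ∀ V : Finset ℚ, (V.card : ℝ) ≤ (Y : ℝ) ^ δ →
    (∀ x ∈ V, |x.num| ≤ ((Y ^ B : ℕ) : ℤ) ∧ ((x.den : ℕ) : ℤ) ≤ ((Y ^ B : ℕ) : ℤ)) →
    ∀ S : Finset (Fin (d + 1) → ℤ),
      (∀ t ∈ S, (∀ j, |t j| ≤ (Y : ℤ)) ∧ Squarefree (ply t) ∧ Many N n V t) →
      (∀ t ∈ S, ∀ t' ∈ S, t ≠ t' → ¬ ∃ l : ℚ, l ≠ 0 ∧ ply t' = Polynomial.C (l ^ n) * ply t) →
        (S.card : ℝ) ≤ C * (Y : ℝ) ^ ε := by
  classical
  by_contra hcon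
  push Not at hcon
  choose X hX1 V hV hVh S hS hcj hcard using fun ν : ℕ => hcon ν (1 / ((ν : ℝ) + 1)) (ν : ℝ)
    (by positivity)
  have hXR : ∀ ν, (1 : ℝ) ≤ (X ν : ℝ) := fun ν => by exact_mod_cast hX1 ν
  -- the points
  have hpts : ∀ ν, ∀ t : Fin (d + 1) → ℤ, ∃ x : ℕ → ℚ, t ∈ S ν →
      (∀ i, i < ν + 1 → x i ∈ V ν ∧ ∃ y : ℚ, y ≠ 0 ∧ y ^ n = (ply t).eval (x i)) ∧
        ∀ i j, i < ν + 1 → j < ν + 1 → i ≠ j → x i ≠ x j := by
    intro ν t
    by_cases ht : t ∈ S ν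
    · obtain ⟨-, -, P, hP1, hP2⟩ := hS ν t ht
      refine ⟨fun i => if h : i < P.card then (P.equivFin.symm ⟨i, h⟩ : ℚ) else 0, fun _ => ⟨?_, ?_⟩⟩
      · intro i hi
        simp only [dif_pos (by omega : i < P.card)]
        exact hP2 _ (P.equivFin.symm ⟨i, by omega⟩).2
      · intro i j hi hj hij h
        simp only [dif_pos (by omega : i < P.card), dif_pos (by omega : j < P.card)] at h
        have h1 := P.equivFin.symm.injective (Subtype.ext h)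
        exact hij (congrArg Fin.val h1)
    · exact ⟨fun _ => 0, fun h => absurd h ht⟩
  choose pts hpts using hpts
  -- the pigeonhole principle
  let I : ℕ → ℕ := fun ν => min ν ⌊ε * ((ν : ℝ) + 1) / 2⌋₊
  have hI1 : ∀ ν, I ν ≤ ν := fun ν => min_le_left _ _
  have hI2 : ∀ ν, (I ν : ℝ) ≤ ε * ((ν : ℝ) + 1) / 2 := fun ν => by
    have h1 : (I ν : ℝ) ≤ ((⌊ε * ((ν : ℝ) + 1) / 2⌋₊ : ℕ) : ℝ) :=
      Nat.cast_le.2 (min_le_right _ _)
    exact h1.trans (Nat.floor_le (by positivity))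
  have hI3 : ∀ i, ∀ᶠ ν in (Uf : Filter ℕ), i < I ν := by
    intro i
    obtain ⟨k, hk⟩ := exists_nat_gt ((2 * ((i : ℝ) + 1)) / ε)
    filter_upwards [ev_ge (max k (i + 1))] with ν hν
    have h1 : k ≤ ν := (le_max_left _ _).trans hν
    have h2 : i + 1 ≤ ν := (le_max_right _ _).trans hν
    refine lt_min (by omega) ?_
    rw [← Nat.add_one_le_iff, Nat.le_floor_iff (by positivity)]
    rw [div_lt_iff₀ hε] at hk
    have h3 : (k : ℝ) ≤ (ν : ℝ) := by exact_mod_cast h1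
    push_cast
    nlinarith
  have hfib : ∀ ν, ∃ y : Fin (I ν) → ℚ, (ν : ℝ) * (X ν : ℝ) ^ (ε / 2) ≤
      (((S ν).filter fun t => (fun i : Fin (I ν) => pts ν t i) = y).card : ℝ) := by
    intro ν
    rcases Finset.eq_empty_or_nonempty (S ν) with hSe | ⟨t₀, ht₀⟩
    · exfalso
      have h1 := hcard ν
      rw [hSe, Finset.card_empty, Nat.cast_zero] at h1
      have : (0 : ℝ) ≤ (ν : ℝ) * (X ν : ℝ) ^ ε := by positivity
      linarith
    have hmaps : ∀ t ∈ S ν, (fun i : Fin (I ν) => pts ν t i) ∈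
        Fintype.piFinset fun _ : Fin (I ν) => V ν := by
      intro t ht
      rw [Fintype.mem_piFinset]
      intro i
      exact ((hpts ν t ht).1 i (by have := hI1 ν; omega)).1
    obtain ⟨y, -, hy⟩ := Finset.exists_le_card_fiber_of_nsmul_le_card_of_maps_to (M := ℝ)
      hmaps ⟨_, hmaps t₀ ht₀⟩ (b := (ν : ℝ) * (X ν : ℝ) ^ (ε / 2)) (by
        rw [nsmul_eq_mul, Fintype.card_piFinset, Finset.prod_const, Finset.card_univ,
          Fintype.card_fin]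
        refine le_trans ?_ (hcard ν).le
        push_cast
        have h1 : ((V ν).card : ℝ) ^ (I ν) ≤ (X ν : ℝ) ^ (ε / 2) := by
          calc ((V ν).card : ℝ) ^ (I ν) ≤ ((X ν : ℝ) ^ (1 / ((ν : ℝ) + 1))) ^ (I ν) :=
                pow_le_pow_left₀ (Nat.cast_nonneg _) (hV ν) _
            _ = (X ν : ℝ) ^ (1 / ((ν : ℝ) + 1) * (I ν : ℝ)) := by
                rw [← Real.rpow_natCast, ← Real.rpow_mul (by linarith [hXR ν])]
            _ ≤ (X ν : ℝ) ^ (ε / 2) := by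
                refine Real.rpow_le_rpow_of_exponent_le (hXR ν) ?_
                have h2 := hI2 ν
                rw [div_mul_eq_mul_div, one_mul, div_le_iff₀ (by positivity)]
                linarith
        calc ((V ν).card : ℝ) ^ (I ν) * ((ν : ℝ) * (X ν : ℝ) ^ (ε / 2)) ≤
              (X ν : ℝ) ^ (ε / 2) * ((ν : ℝ) * (X ν : ℝ) ^ (ε / 2)) :=
              mul_le_mul_of_nonneg_right h1 (by positivity)
          _ = (ν : ℝ) * ((X ν : ℝ) ^ (ε / 2) * (X ν : ℝ) ^ (ε / 2)) := by ring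
          _ = (ν : ℝ) * (X ν : ℝ) ^ ε := by
              rw [← Real.rpow_add (by linarith [hXR ν])]
              congr 2
              ring)
    exact ⟨y, hy⟩
  choose y hy using hfib
  obtain ⟨Om, hOm⟩ : ∃ Om : ℕ → Finset (Fin (d + 1) → ℤ), ∀ ν, Om ν = (S ν).filter fun t =>
      (fun i : Fin (I ν) => pts ν t i) = y ν := ⟨_, fun _ => rfl⟩
  have hOmS : ∀ ν, ∀ t ∈ Om ν, t ∈ S ν := by
    intro ν t ht
    rw [hOm] at ht
    exact (Finset.mem_filter.1 ht).1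
  let x : ℕ → ℕ → ℚ := fun i ν => if h : i < I ν then y ν ⟨i, h⟩ else 0
  have hx : ∀ ν, ∀ t ∈ Om ν, ∀ i, i < I ν → pts ν t i = x i ν := by
    intro ν t ht i hi
    rw [hOm] at ht
    have h1 := congrFun (Finset.mem_filter.1 ht).2 ⟨i, hi⟩
    show _ = dite _ _ _
    rw [dif_pos hi]
    exact h1
  let e : ℕ → ℕ → ℤ := fun i ν => ((x i ν).den : ℤ)
  let p : ℕ → ℕ → ℤ := fun i ν => (x i ν).num
  have he0 : ∀ i ν, e i ν ≠ 0 := fun i ν => by
    show ((x i ν).den : ℤ) ≠ 0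
    exact_mod_cast (x i ν).den_ne_zero
  have hepos : ∀ i ν, 0 < e i ν := fun i ν => by
    show 0 < ((x i ν).den : ℤ)
    exact_mod_cast (x i ν).den_pos
  -- the roots
  have hz : ∀ ν t i, ∃ z : ℤ, t ∈ Om ν → i < I ν →
      z ^ n = ∑ j : Fin (d + 1), t j * ((p i ν) ^ (j : ℕ) * (e i ν) ^ (d * n - (j : ℕ))) := by
    intro ν t i
    by_cases h : t ∈ Om ν ∧ i < I ν
    · obtain ⟨ht, hi⟩ := h
      obtain ⟨-, w, hw0, hw⟩ := (hpts ν t (hOmS ν t ht)).1 i (by have := hI1 ν; omega)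
      rw [hx ν t ht i hi] at hw
      have h1 := ply_scaled (d := d) (n := n) (by omega) t (x i ν)
      rw [← hw, ← mul_pow] at h1
      obtain ⟨z, hz⟩ := int_pow (by omega) h1
      refine ⟨z, fun _ _ => ?_⟩
      rw [← hz] at h1
      exact_mod_cast h1
    · exact ⟨0, fun h1 h2 => absurd ⟨h1, h2⟩ h⟩
  choose zz hzz using hz
  let z : ℕ → ℕ → (Fin (d + 1) → ℤ) → ℤ := fun i ν t => zz ν t i
  obtain ⟨κ, hκ⟩ : ∃ κ, κ = 2 + 2 * B * (d * n) + 2 * B := ⟨_, rfl⟩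
  let Y : ℕ → ℕ := fun ν => (d + 1) ^ 2 * (X ν) ^ κ
  have hYX : ∀ ν k, k ≤ κ → (X ν) ^ k ≤ Y ν := fun ν k hk => by
    calc (X ν) ^ k ≤ (X ν) ^ κ := Nat.pow_le_pow_right (hX1 ν) hk
      _ = 1 * (X ν) ^ κ := (one_mul _).symm
      _ ≤ _ := Nat.mul_le_mul_right _ (Nat.one_le_pow _ _ (by omega))
  -- sizes
  have hXbig : ∀ m : ℕ, ∀ᶠ ν in (Uf : Filter ℕ), m ≤ X ν := by
    intro m
    filter_upwards [ev_ge ((2 * m + 1) ^ (d + 1) + 1)] with ν hν
    by_contra hlt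
    push Not at hlt
    have h1 := card_box' (S ν) (fun c hc => (hS ν c hc).1)
    have h2 : (2 * X ν + 1) ^ (d + 1) ≤ (2 * m + 1) ^ (d + 1) :=
      Nat.pow_le_pow_left (by omega) _
    have h3 : (ν : ℝ) < ((S ν).card : ℝ) := by
      refine lt_of_le_of_lt ?_ (hcard ν)
      have : (1 : ℝ) ≤ (X ν : ℝ) ^ ε := Real.one_le_rpow (hXR ν) hε.le
      nlinarith [(Nat.cast_nonneg ν : (0 : ℝ) ≤ (ν : ℝ))]
    have h4 : ν < (S ν).card := by exact_mod_cast h3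
    omega
  have hY : ∀ m : ℕ, ∀ᶠ ν in (Uf : Filter ℕ), m ≤ Y ν := by
    intro m
    filter_upwards [hXbig m] with ν hν
    have h1 := hYX ν 1 (by omega)
    rw [pow_one] at h1
    omega
  have hκ0 : 0 < κ := by omega
  have hbig : Big Y Om := by
    have hκR : (0 : ℝ) < (κ : ℝ) := by exact_mod_cast hκ0
    have hpos : (0 : ℝ) < ε / (2 * κ) := by positivity
    refine big_of_card (ε := ε / (2 * κ)) hpos (hY 2) ?_
    obtain ⟨m, hm⟩ := exists_nat_gt ((((d + 1) ^ 2 : ℕ) : ℝ) ^ (ε / (2 * κ)))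
    filter_upwards [ev_ge m] with ν hν
    have hX0 : (0 : ℝ) ≤ (X ν : ℝ) := Nat.cast_nonneg _
    have e2 : ((Y ν : ℕ) : ℝ) ^ (ε / (2 * κ)) =
        (((d + 1) ^ 2 : ℕ) : ℝ) ^ (ε / (2 * κ)) * (X ν : ℝ) ^ (ε / 2) := by
      show (((d + 1) ^ 2 * (X ν) ^ κ : ℕ) : ℝ) ^ (ε / (2 * κ)) = _
      rw [Nat.cast_mul, Nat.cast_pow (X ν), Real.mul_rpow (by positivity) (by positivity),
        ← Real.rpow_natCast (X ν : ℝ), ← Real.rpow_mul hX0]
      congr 2
      field_simp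
    rw [e2]
    have h1 := hy ν
    rw [← hOm] at h1
    refine lt_of_lt_of_le ?_ h1
    refine mul_lt_mul_of_pos_right ?_ (by
      have := hXR ν
      positivity)
    have : (m : ℝ) ≤ (ν : ℝ) := by exact_mod_cast hν
    linarith
  have hxV : ∀ i, ∀ᶠ ν in (Uf : Filter ℕ), |p i ν| ≤ ((X ν ^ B : ℕ) : ℤ) ∧
      e i ν ≤ ((X ν ^ B : ℕ) : ℤ) := by
    intro i
    filter_upwards [hI3 i, hbig.nonempty] with ν h1 h2
    obtain ⟨t, ht⟩ := h2
    have h3 := hx ν t ht i h1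
    obtain ⟨h4, -⟩ := (hpts ν t (hOmS ν t ht)).1 i (by have := hI1 ν; omega)
    rw [h3] at h4
    exact hVh ν _ h4
  have hB1 : B ≤ κ := by rw [hκ]; nlinarith [Nat.zero_le (2 * B * (d * n))]
  have hcore := core hn hY hbig e p z
    (fun i => Filter.Eventually.of_forall fun ν => he0 i ν)
    (fun i => by
      filter_upwards [hxV i] with ν h1
      rw [abs_of_pos (hepos i ν)]
      exact h1.2.trans (by exact_mod_cast hYX ν B hB1))
    (fun i => by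
      filter_upwards [hxV i] with ν h1
      exact h1.1.trans (by exact_mod_cast hYX ν B hB1))
    (Filter.Eventually.of_forall fun ν t ht => (hS ν t (hOmS ν t ht)).2.1)
    (Filter.Eventually.of_forall fun ν t ht j => by
      have h1 := (hS ν t (hOmS ν t ht)).1 j
      have h2 := hYX ν 2 (by omega)
      have h3 : (t j) ^ 2 ≤ (X ν : ℤ) ^ 2 := sq_le_sq' (abs_le.1 h1).1 (abs_le.1 h1).2
      refine h3.trans ?_
      exact_mod_cast h2)
    (fun i => by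
      filter_upwards [hxV i, hI3 i] with ν h1 h2 t ht
      have h3 := hzz ν t i ht h2
      have h4 := ply_bound (d := d) (n := n) (by omega) t (x i ν) (Y := X ν) (M := X ν ^ B)
        (Nat.one_le_pow _ _ (hX1 ν)) (hS ν t (hOmS ν t ht)).1 h1.1 h1.2
      have h5 : |zz ν t i| ≤ (((d + 1) * (X ν * (X ν ^ B) ^ (d * n)) : ℕ) : ℤ) := by
        refine le_trans ?_ h4
        have h6 : |zz ν t i| ≤ |zz ν t i| ^ n := by
          rcases eq_or_ne (zz ν t i) 0 with h7 | h7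
          · rw [h7, abs_zero]
            positivity
          · exact le_self_pow₀ (Int.one_le_abs h7) (by omega)
        rw [← abs_pow, h3] at h6
        exact h6
      have h6 : (zz ν t i) ^ 2 ≤ ((((d + 1) * (X ν * (X ν ^ B) ^ (d * n))) ^ 2 : ℕ) : ℤ) := by
        rw [Nat.cast_pow]
        exact sq_le_sq' (abs_le.1 h5).1 (abs_le.1 h5).2
      refine h6.trans ?_
      have h7 : ((d + 1) * (X ν * (X ν ^ B) ^ (d * n))) ^ 2 ≤ Y ν := by
        have e1 : ((d + 1) * (X ν * (X ν ^ B) ^ (d * n))) ^ 2 =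
            (d + 1) ^ 2 * X ν ^ (2 + 2 * B * (d * n)) := by
          rw [mul_pow, mul_pow, ← pow_mul, ← pow_mul, ← pow_add]
          congr 2
          ring
        rw [e1]
        exact Nat.mul_le_mul_left _ (Nat.pow_le_pow_right (hX1 ν) (by omega))
      exact_mod_cast h7)
    (fun i => by
      filter_upwards [hI3 i] with ν h1 t ht
      exact hzz ν t i ht h1)
    (fun i j hij => by
      filter_upwards [hI3 i, hI3 j, hbig.nonempty] with ν h1 h2 h3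
      obtain ⟨t, ht⟩ := h3
      have h4 := (hpts ν t (hOmS ν t ht)).2 i j (by have := hI1 ν; omega)
        (by have := hI1 ν; omega) hij
      rw [hx ν t ht i h1, hx ν t ht j h2] at h4
      intro h5
      apply h4
      rw [← Rat.num_div_den (x i ν), ← Rat.num_div_den (x j ν), div_eq_div_iff
        (by exact_mod_cast (x i ν).den_ne_zero) (by exact_mod_cast (x j ν).den_ne_zero)]
      exact_mod_cast h5)
  obtain ⟨ν, ⟨t, ht, t', ht', hne, l, hl, hlt⟩, h0⟩ := (hcore.and (hI3 0)).exists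
  obtain ⟨-, w, hw0, hw⟩ := (hpts ν t (hOmS ν t ht)).1 0 (by omega)
  obtain ⟨-, w', hw0', hw'⟩ := (hpts ν t' (hOmS ν t' ht')).1 0 (by omega)
  rw [hx ν t ht 0 h0] at hw
  rw [hx ν t' ht' 0 h0, hlt, Polynomial.eval_mul, Polynomial.eval_C, ← hw] at hw'
  refine hcj ν t (hOmS ν t ht) t' (hOmS ν t' ht') hne (w' / w) (div_ne_zero hw0' hw0) ?_
  rw [div_pow, hw', mul_div_cancel_right₀ _ (pow_ne_zero _ hw0)]
  exact hlt

end Pool.Agent.R323.SH
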