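import Pool.Agent.R323.SH.G

/-!
# The statement for integer polynomials and points of the curves
-/

set_option autoImplicit false

namespace Pool.Agent.R323.SH

/-- the coefficients -/
def cf (d : ℕ) (f : Polynomial ℤ) : Fin (d + 1) → ℤ := fun j => f.coeff j

theorem ply_cf {d : ℕ} {f : Polynomial ℤ} (hf : f.natDegree ≤ d) :
    ply (cf d f) = f.map (Int.castRingHom ℚ) := by
  ext j
  rw [Polynomial.coeff_map]
  by_cases hj : j < d + 1
  · exact ply_coeff (cf d f) ⟨j, hj⟩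
  · rw [Polynomial.coeff_eq_zero_of_natDegree_lt (lt_of_le_of_lt (ply_natDegree _) (by omega)),
      Polynomial.coeff_eq_zero_of_natDegree_lt (p := f) (by omega), map_zero]

theorem cf_inj {d : ℕ} {f g : Polynomial ℤ} (hf : f.natDegree ≤ d) (hg : g.natDegree ≤ d)
    (h : cf d f = cf d g) : f = g := by
  ext j
  by_cases hj : j < d + 1
  · exact congrFun h ⟨j, hj⟩
  · rw [Polynomial.coeff_eq_zero_of_natDegree_lt (by omega),
      Polynomial.coeff_eq_zero_of_natDegree_lt (p := g) (by omega)]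

/-- many points have many nonzero ordinates -/
theorem many_abscissae {n d N : ℕ} (hn : 1 ≤ n) {f : Polynomial ℚ} (hf : f ≠ 0)
    (hd : f.natDegree ≤ d) (P : Finset (ℚ × ℚ)) (hP : n * N + d < P.card)
    (h : ∀ q ∈ P, q.2 ^ n = f.eval q.1) :
    N < ((P.filter fun q => q.2 ≠ 0).image Prod.fst).card := by
  classical
  have h1 : (P.filter fun q => ¬ q.2 ≠ 0).card ≤ d := by
    have h2 : (P.filter fun q => ¬ q.2 ≠ 0).card =
        ((P.filter fun q => ¬ q.2 ≠ 0).image Prod.fst).card := by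
      refine (Finset.card_image_of_injOn ?_).symm
      intro q hq q' hq' hqq
      have e1 := (Finset.mem_filter.1 (Finset.mem_coe.1 hq)).2
      have e2 := (Finset.mem_filter.1 (Finset.mem_coe.1 hq')).2
      push Not at e1 e2
      exact Prod.ext hqq (e1.trans e2.symm)
    rw [h2]
    refine le_trans (Finset.card_le_card (t := f.roots.toFinset) ?_)
      ((Multiset.toFinset_card_le _).trans ((Polynomial.card_roots' f).trans hd))
    intro x hx
    obtain ⟨q, hq, rfl⟩ := Finset.mem_image.1 hx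
    obtain ⟨hq1, hq2⟩ := Finset.mem_filter.1 hq
    push Not at hq2
    rw [Multiset.mem_toFinset, Polynomial.mem_roots hf, Polynomial.IsRoot.def, ← h q hq1, hq2,
      zero_pow (by omega)]
  have h2 : (P.filter fun q => q.2 ≠ 0).card ≤
      n * ((P.filter fun q => q.2 ≠ 0).image Prod.fst).card := by
    refine Finset.card_le_mul_card_image _ n fun x hx => ?_
    obtain ⟨q₀, hq₀, rfl⟩ := Finset.mem_image.1 hx
    obtain ⟨hq1, hq2⟩ := Finset.mem_filter.1 hq₀
    have h3 : (Polynomial.X ^ n - Polynomial.C (f.eval q₀.1) : Polynomial ℚ) ≠ 0 :=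
      (Polynomial.monic_X_pow_sub_C _ (by omega)).ne_zero
    have h4 : ((P.filter fun q => q.2 ≠ 0).filter fun q => q.1 = q₀.1).card =
        (((P.filter fun q => q.2 ≠ 0).filter fun q => q.1 = q₀.1).image Prod.snd).card := by
      refine (Finset.card_image_of_injOn ?_).symm
      intro q hq q' hq' hqq
      have e1 := (Finset.mem_filter.1 (Finset.mem_coe.1 hq)).2
      have e2 := (Finset.mem_filter.1 (Finset.mem_coe.1 hq')).2
      exact Prod.ext (e1.trans e2.symm) hqq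
    rw [h4]
    refine le_trans (Finset.card_le_card (t := (Polynomial.X ^ n -
      Polynomial.C (f.eval q₀.1) : Polynomial ℚ).roots.toFinset) ?_)
      ((Multiset.toFinset_card_le _).trans ((Polynomial.card_roots' _).trans ?_))
    · intro y hy
      obtain ⟨q, hq, rfl⟩ := Finset.mem_image.1 hy
      obtain ⟨hq3, hq4⟩ := Finset.mem_filter.1 hq
      obtain ⟨hq5, -⟩ := Finset.mem_filter.1 hq3
      rw [Multiset.mem_toFinset, Polynomial.mem_roots h3, Polynomial.IsRoot.def,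
        Polynomial.eval_sub, Polynomial.eval_pow, Polynomial.eval_X, Polynomial.eval_C, h q hq5,
        hq4, sub_self]
    · rw [Polynomial.natDegree_X_pow_sub_C]
  have h3 := Finset.card_filter_add_card_filter_not (s := P) (fun q => q.2 ≠ 0)
  by_contra hcon
  push Not at hcon
  have h4 := Nat.mul_le_mul_left n hcon
  omega

/-- **Few curves with many points with abscissae in a small set.** -/
theorem main (d n : ℕ) (hn : 2 ≤ n) (B : ℕ) (ε : ℝ) (hε : 0 < ε) :
    ∃ (N : ℕ) (δ C : ℝ), 0 < δ ∧ ∀ Y : ℕ, 1 ≤ Y → ∀ V : Finset ℚ, (V.card : ℝ) ≤ (Y : ℝ) ^ δ →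
      (∀ x ∈ V, |x.num| ≤ (Y : ℤ) ^ B ∧ x.den ≤ Y ^ B) →
      ∀ S : Finset (Polynomial ℤ),
        (∀ f ∈ S, f.natDegree ≤ d ∧ (∀ j, |f.coeff j| ≤ (Y : ℤ)) ∧
          Squarefree (f.map (Int.castRingHom ℚ)) ∧
          ∃ P : Finset (ℚ × ℚ), N < P.card ∧
            ∀ q ∈ P, q.1 ∈ V ∧ q.2 ^ n = (f.map (Int.castRingHom ℚ)).eval q.1) →
        (∀ f ∈ S, ∀ g ∈ S, f ≠ g → ¬ ∃ l : ℚ, l ≠ 0 ∧
          g.map (Int.castRingHom ℚ) = Polynomial.C (l ^ n) * f.map (Int.castRingHom ℚ)) →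
        (S.card : ℝ) ≤ C * (Y : ℝ) ^ ε := by
  classical
  obtain ⟨N, δ, C, hδ, h⟩ := small_points d n hn B ε hε
  refine ⟨n * N + d, δ, C, hδ, ?_⟩
  intro Y hY V hV hVh S hS hS2
  have hinj : Set.InjOn (cf d) (S : Set (Polynomial ℤ)) := by
    intro f hf g hg hfg
    exact cf_inj (hS f hf).1 (hS g hg).1 hfg
  rw [← Finset.card_image_of_injOn hinj]
  refine h Y hY V hV (fun x hx => ?_) _ ?_ ?_
  · obtain ⟨h1, h2⟩ := hVh x hx
    push_cast
    exact ⟨h1, by exact_mod_cast h2⟩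
  · intro t ht
    obtain ⟨f, hf, rfl⟩ := Finset.mem_image.1 ht
    obtain ⟨h1, h2, h3, P, hP1, hP2⟩ := hS f hf
    rw [ply_cf h1]
    refine ⟨fun j => h2 _, h3, ?_⟩
    unfold Many
    refine ⟨_, many_abscissae (by omega) h3.ne_zero
      ((Polynomial.natDegree_map_le).trans h1) P hP1 (fun q hq => (hP2 q hq).2), ?_⟩
    intro x hx
    obtain ⟨q, hq, rfl⟩ := Finset.mem_image.1 hx
    obtain ⟨hq1, hq2⟩ := Finset.mem_filter.1 hq
    refine ⟨(hP2 q hq1).1, q.2, hq2, ?_⟩
    rw [ply_cf h1]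
    exact (hP2 q hq1).2
  · intro t ht t' ht' htt
    obtain ⟨f, hf, rfl⟩ := Finset.mem_image.1 ht
    obtain ⟨g, hg, rfl⟩ := Finset.mem_image.1 ht'
    rw [ply_cf (hS f hf).1, ply_cf (hS g hg).1]
    exact hS2 f hf g hg fun hfg => htt (by rw [hfg])

end Pool.Agent.R323.SH
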