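import Pool.Agent.R323.SH.H

/-!
# Elliptic curves
-/

set_option autoImplicit false

namespace Pool.Agent.R323.SH

/-- the polynomial `x ^ 3 + A x + B` -/
noncomputable def ec (t : ℤ × ℤ) : Polynomial ℤ :=
  Polynomial.X ^ 3 + Polynomial.C t.1 * Polynomial.X + Polynomial.C t.2

theorem ec_coeff (t : ℤ × ℤ) (j : ℕ) : (ec t).coeff j =
    if j = 3 then 1 else if j = 1 then t.1 else if j = 0 then t.2 else 0 := by
  unfold ec
  rw [Polynomial.coeff_add, Polynomial.coeff_add, Polynomial.coeff_X_pow, Polynomial.coeff_C_mul,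
    Polynomial.coeff_X, Polynomial.coeff_C]
  rcases eq_or_ne j 3 with rfl | h3
  · simp
  rcases eq_or_ne j 1 with rfl | h1
  · simp
  rcases eq_or_ne j 0 with rfl | h0
  · simp
  · simp [h3, h1, h0, h1.symm]

theorem ec_natDegree (t : ℤ × ℤ) : (ec t).natDegree ≤ 3 := by
  rw [Polynomial.natDegree_le_iff_coeff_eq_zero]
  intro j hj
  rw [ec_coeff, if_neg (by omega), if_neg (by omega), if_neg (by omega)]

theorem ec_inj : Function.Injective ec := by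
  intro s t h
  have h1 := congrArg (fun f : Polynomial ℤ => f.coeff 1) h
  have h0 := congrArg (fun f : Polynomial ℤ => f.coeff 0) h
  simp only [ec_coeff] at h1 h0
  norm_num at h1 h0
  exact Prod.ext h1 h0

theorem ec_map (t : ℤ × ℤ) : (ec t).map (Int.castRingHom ℚ) =
    Polynomial.X ^ 3 + Polynomial.C (t.1 : ℚ) * Polynomial.X + Polynomial.C (t.2 : ℚ) := by
  unfold ec
  simp

theorem ec_sqfree (t : ℤ × ℤ) (h : 4 * t.1 ^ 3 + 27 * t.2 ^ 2 ≠ 0) :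
    Squarefree ((ec t).map (Int.castRingHom ℚ)) := by
  obtain ⟨a, ha⟩ : ∃ a : ℚ, a = t.1 := ⟨_, rfl⟩
  obtain ⟨b, hb⟩ : ∃ b : ℚ, b = t.2 := ⟨_, rfl⟩
  have h' : 4 * a ^ 3 + 27 * b ^ 2 ≠ 0 := by
    rw [ha, hb]
    exact_mod_cast h
  rw [ec_map, ← ha, ← hb]
  refine Polynomial.Separable.squarefree ?_
  rw [Polynomial.separable_def']
  -- Bezout identity
  refine ⟨Polynomial.C ((4 * a ^ 3 + 27 * b ^ 2)⁻¹) *
      (-(18 : Polynomial ℚ) * Polynomial.C a * Polynomial.X + 27 * Polynomial.C b),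
    Polynomial.C ((4 * a ^ 3 + 27 * b ^ 2)⁻¹) * (6 * Polynomial.C a * Polynomial.X ^ 2 -
      9 * Polynomial.C b * Polynomial.X + 4 * Polynomial.C a ^ 2), ?_⟩
  have e1 : Polynomial.C ((4 * a ^ 3 + 27 * b ^ 2)⁻¹) *
      (4 * Polynomial.C a ^ 3 + 27 * Polynomial.C b ^ 2) = (1 : Polynomial ℚ) := by
    have : (4 * Polynomial.C a ^ 3 + 27 * Polynomial.C b ^ 2 : Polynomial ℚ) =
        Polynomial.C (4 * a ^ 3 + 27 * b ^ 2) := by
      simp only [Polynomial.C_add, Polynomial.C_mul, Polynomial.C_pow]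
      rfl
    rw [this, ← Polynomial.C_mul, inv_mul_cancel₀ h', Polynomial.C_1]
  have e2 : Polynomial.derivative (Polynomial.X ^ 3 + Polynomial.C a * Polynomial.X +
      Polynomial.C b) = 3 * Polynomial.X ^ 2 + Polynomial.C a := by
    simp only [Polynomial.derivative_add, Polynomial.derivative_X_pow, Polynomial.derivative_C_mul,
      Polynomial.derivative_X, Polynomial.derivative_C, mul_one, add_zero]
    rfl
  rw [e2, ← e1]
  ring

/-- rational numbers of small height -/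
noncomputable def HQ (H : ℕ) : Finset ℚ :=
  (Finset.Icc (-(H : ℤ)) H ×ˢ Finset.Icc 1 H).image fun p => (p.1 : ℚ) / ((p.2 : ℕ) : ℚ)

theorem card_HQ (H : ℕ) : (HQ H).card ≤ (2 * H + 1) * H := by
  unfold HQ
  refine Finset.card_image_le.trans (le_of_eq ?_)
  rw [Finset.card_product, Int.card_Icc, Nat.card_Icc]
  congr 1
  omega

theorem mem_HQ {H : ℕ} {x : ℚ} (h1 : |x.num| ≤ (H : ℤ)) (h2 : x.den ≤ H) : x ∈ HQ H := by
  unfold HQ
  refine Finset.mem_image.2 ⟨(x.num, x.den), Finset.mem_product.2 ⟨?_, ?_⟩, Rat.num_div_den x⟩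
  · rw [Finset.mem_Icc]
    exact abs_le.1 h1
  · rw [Finset.mem_Icc]
    exact ⟨x.den_pos, h2⟩

theorem HQ_ht {H : ℕ} {x : ℚ} (hx : x ∈ HQ H) : |x.num| ≤ (H : ℤ) ∧ x.den ≤ H := by
  unfold HQ at hx
  obtain ⟨p, hp, rfl⟩ := Finset.mem_image.1 hx
  obtain ⟨h1, h2⟩ := Finset.mem_product.1 hp
  rw [Finset.mem_Icc] at h1 h2
  have h3 := Pool.Agent.R323.SE.rat_le (A := p.1) (B := (p.2 : ℤ)) (c := (p.1 : ℚ) / (p.2 : ℚ))
    (Z := H) (by omega) (by push_cast; rfl) (abs_le.2 h1) (by rw [Nat.abs_cast]; exact_mod_cast h2.2)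
  exact ⟨h3.1, by exact_mod_cast h3.2⟩

/-- **Elliptic curves with many small points.** -/
theorem elliptic (ε : ℝ) (hε : 0 < ε) : ∃ (N : ℕ) (δ C : ℝ), 0 < δ ∧ ∀ Y : ℕ, 1 ≤ Y →
    ∀ S : Finset (ℤ × ℤ), (∀ t ∈ S, |t.1| ≤ (Y : ℤ) ∧ |t.2| ≤ (Y : ℤ) ∧
      4 * t.1 ^ 3 + 27 * t.2 ^ 2 ≠ 0 ∧ ∃ P : Finset (ℚ × ℚ), N < P.card ∧ ∀ q ∈ P,
        (|q.1.num| : ℝ) ≤ (Y : ℝ) ^ δ ∧ (q.1.den : ℝ) ≤ (Y : ℝ) ^ δ ∧
          q.2 ^ 2 = q.1 ^ 3 + t.1 * q.1 + t.2) →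
      (S.card : ℝ) ≤ C * (Y : ℝ) ^ ε := by
  classical
  obtain ⟨N, δ, C, hδ, h⟩ := main 3 2 le_rfl 1 ε hε
  obtain ⟨δ', hδ'⟩ : ∃ δ' : ℝ, δ' = min 1 (δ / 3) := ⟨_, rfl⟩
  have hδ'0 : 0 < δ' := by rw [hδ']; positivity
  have hδ'1 : δ' ≤ 1 := by rw [hδ']; exact min_le_left _ _
  have hδ'3 : δ' ≤ δ / 3 := by rw [hδ']; exact min_le_right _ _
  obtain ⟨Y₀, hY₀⟩ := exists_nat_gt ((3 : ℝ) ^ (1 / δ'))
  refine ⟨N, δ', max C (((2 * Y₀ + 1) ^ 2 : ℕ) : ℝ), hδ'0, fun Y hY S hS => ?_⟩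
  have hYR : (1 : ℝ) ≤ Y := by exact_mod_cast hY
  have hY0 : (0 : ℝ) < Y := by linarith
  have hYε : (1 : ℝ) ≤ (Y : ℝ) ^ ε := Real.one_le_rpow hYR hε.le
  rcases lt_or_ge Y Y₀ with hlt | hge
  · have h1 : S ⊆ Finset.Icc (-(Y₀ : ℤ)) Y₀ ×ˢ Finset.Icc (-(Y₀ : ℤ)) Y₀ := by
      intro t ht
      obtain ⟨h1, h2, -⟩ := hS t ht
      rw [Finset.mem_product, Finset.mem_Icc, Finset.mem_Icc]
      have h3 := abs_le.1 h1
      have h4 := abs_le.1 h2
      exact ⟨⟨by omega, by omega⟩, by omega, by omega⟩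
    have h2 := Finset.card_le_card h1
    rw [Finset.card_product, Int.card_Icc] at h2
    have h3 : S.card ≤ (2 * Y₀ + 1) ^ 2 := by
      refine h2.trans (le_of_eq ?_)
      have : ((Y₀ : ℤ) + 1 - -(Y₀ : ℤ)).toNat = 2 * Y₀ + 1 := by omega
      rw [this, sq]
    have h4 : (S.card : ℝ) ≤ (((2 * Y₀ + 1) ^ 2 : ℕ) : ℝ) := by exact_mod_cast h3
    calc (S.card : ℝ) ≤ (((2 * Y₀ + 1) ^ 2 : ℕ) : ℝ) := h4
      _ ≤ max C (((2 * Y₀ + 1) ^ 2 : ℕ) : ℝ) := le_max_right _ _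
      _ = max C (((2 * Y₀ + 1) ^ 2 : ℕ) : ℝ) * 1 := (mul_one _).symm
      _ ≤ _ := mul_le_mul_of_nonneg_left hYε ((Nat.cast_nonneg _).trans (le_max_right _ _))
  · have h3Y : (3 : ℝ) ≤ (Y : ℝ) ^ δ' := by
      have h1 : (3 : ℝ) ^ (1 / δ') ≤ Y := by
        have h2 : (Y₀ : ℝ) ≤ Y := by exact_mod_cast hge
        linarith
      calc (3 : ℝ) = ((3 : ℝ) ^ (1 / δ')) ^ δ' := by
            rw [← Real.rpow_mul (by norm_num), one_div_mul_cancel hδ'0.ne', Real.rpow_one]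
        _ ≤ (Y : ℝ) ^ δ' := Real.rpow_le_rpow (by positivity) h1 hδ'0.le
    obtain ⟨H, hH⟩ : ∃ H : ℕ, H = ⌊(Y : ℝ) ^ δ'⌋₊ := ⟨_, rfl⟩
    have hHle : (H : ℝ) ≤ (Y : ℝ) ^ δ' := by
      rw [hH]
      exact Nat.floor_le (by positivity)
    have hHY : H ≤ Y := by
      have h1 : (H : ℝ) ≤ (Y : ℝ) := by
        refine hHle.trans ?_
        calc (Y : ℝ) ^ δ' ≤ (Y : ℝ) ^ (1 : ℝ) := Real.rpow_le_rpow_of_exponent_le hYR hδ'1
          _ = Y := Real.rpow_one _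
      exact_mod_cast h1
    have hH1 : 1 ≤ H := by
      rw [hH]
      exact Nat.le_floor (by push_cast; linarith)
    have hV : ((HQ H).card : ℝ) ≤ (Y : ℝ) ^ δ := by
      have h1 : ((HQ H).card : ℝ) ≤ (2 * (H : ℝ) + 1) * (H : ℝ) := by exact_mod_cast card_HQ H
      have h2 : (1 : ℝ) ≤ H := by exact_mod_cast hH1
      have h3 : (2 * (H : ℝ) + 1) * (H : ℝ) ≤ (Y : ℝ) ^ δ' * ((Y : ℝ) ^ δ' * (Y : ℝ) ^ δ') := by
        have h4 : (0 : ℝ) < (Y : ℝ) ^ δ' := by positivity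
        calc (2 * (H : ℝ) + 1) * (H : ℝ) ≤ 3 * ((H : ℝ) * (H : ℝ)) := by nlinarith
          _ ≤ (Y : ℝ) ^ δ' * ((Y : ℝ) ^ δ' * (Y : ℝ) ^ δ') :=
              mul_le_mul h3Y (mul_le_mul hHle hHle (by positivity) h4.le) (by positivity) h4.le
      refine h1.trans (h3.trans ?_)
      rw [← Real.rpow_add hY0, ← Real.rpow_add hY0]
      exact Real.rpow_le_rpow_of_exponent_le hYR (by linarith)
    have h1 := h Y hY (HQ H) hV (fun x hx => by
      obtain ⟨e1, e2⟩ := HQ_ht hx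
      rw [pow_one, pow_one]
      exact ⟨e1.trans (by exact_mod_cast hHY), e2.trans hHY⟩) (S.image ec) (by
      intro f hf
      obtain ⟨t, ht, rfl⟩ := Finset.mem_image.1 hf
      obtain ⟨e1, e2, e3, P, hP1, hP2⟩ := hS t ht
      refine ⟨ec_natDegree t, ?_, ec_sqfree t e3, P, hP1, ?_⟩
      · intro j
        rw [ec_coeff]
        have hY1 : (1 : ℤ) ≤ Y := by exact_mod_cast hY
        split_ifs
        · rw [abs_one]; exact hY1
        · exact e1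
        · exact e2
        · rw [abs_zero]; omega
      · intro q hq
        obtain ⟨e4, e5, e6⟩ := hP2 q hq
        refine ⟨mem_HQ ?_ ?_, ?_⟩
        · have : q.1.num.natAbs ≤ H := by
            rw [hH]
            refine Nat.le_floor ?_
            have e7 : ((q.1.num.natAbs : ℕ) : ℝ) = |(q.1.num : ℝ)| := by
              rw [Nat.cast_natAbs, Int.cast_abs]
            rw [e7]
            exact e4
          rw [Int.abs_eq_natAbs]
          exact_mod_cast this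
        · rw [hH]
          exact Nat.le_floor e5
        · rw [ec_map, e6]
          simp) (by
      intro f hf g hg hfg
      obtain ⟨s, hs, rfl⟩ := Finset.mem_image.1 hf
      obtain ⟨t, ht, rfl⟩ := Finset.mem_image.1 hg
      rintro ⟨l, hl, hlt⟩
      apply hfg
      have e1 : l ^ 2 = 1 := by
        have e2 := congrArg (fun f : Polynomial ℚ => f.coeff 3) hlt
        simp only [Polynomial.coeff_C_mul, Polynomial.coeff_map, ec_coeff] at e2
        simpa using e2.symm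
      rw [e1, Polynomial.C_1, one_mul] at hlt
      exact (Polynomial.map_injective _ (Int.castRingHom ℚ).injective_int hlt).symm)
    rw [Finset.card_image_of_injective _ ec_inj] at h1
    exact h1.trans (mul_le_mul_of_nonneg_right (le_max_left _ _) (by linarith))

end Pool.Agent.R323.SH
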