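import Pool.Agent.R323.SH.I

/-!
# The rank of the group generated by the small points
-/

set_option autoImplicit false

namespace Pool.Agent.R323.SH

/-- the coordinates of a point -/
def co (t : ℤ × ℤ) : (WeierstrassCurve.mk 0 0 0 (t.1 : ℚ) (t.2 : ℚ)).toAffine.Point → ℚ × ℚ
  | .zero => (0, 0)
  | .some x y _ => (x, y)

theorem elliptic_rank (ε : ℝ) (hε : 0 < ε) : ∃ (N : ℕ) (δ C : ℝ), 0 < δ ∧ ∀ Y : ℕ, 1 ≤ Y →
    ∀ S : Finset (ℤ × ℤ), (∀ t ∈ S, |t.1| ≤ (Y : ℤ) ∧ |t.2| ≤ (Y : ℤ) ∧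
      4 * t.1 ^ 3 + 27 * t.2 ^ 2 ≠ 0 ∧
      (N : Cardinal) < Module.rank ℤ (Submodule.span ℤ
        {P : (WeierstrassCurve.mk 0 0 0 (t.1 : ℚ) (t.2 : ℚ)).toAffine.Point |
          ∃ x y h, P = .some x y h ∧ (|x.num| : ℝ) ≤ (Y : ℝ) ^ δ ∧ (x.den : ℝ) ≤ (Y : ℝ) ^ δ})) →
      (S.card : ℝ) ≤ C * (Y : ℝ) ^ ε := by
  classical
  obtain ⟨N, δ, C, hδ, h⟩ := elliptic ε hε
  refine ⟨N, δ, C, hδ, fun Y hY S hS => h Y hY S fun t ht => ?_⟩
  obtain ⟨h1, h2, h3, h4⟩ := hS t ht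
  refine ⟨h1, h2, h3, ?_⟩
  obtain ⟨s, hs⟩ : ∃ s : Set (WeierstrassCurve.mk 0 0 0 (t.1 : ℚ) (t.2 : ℚ)).toAffine.Point,
    s = {P | ∃ x y h, P = .some x y h ∧ (|x.num| : ℝ) ≤ (Y : ℝ) ^ δ ∧
      (x.den : ℝ) ≤ (Y : ℝ) ^ δ} := ⟨_, rfl⟩
  rw [← hs] at h4
  have h5 : (N : Cardinal) < Cardinal.mk s := lt_of_lt_of_le h4 (rank_span_le s)
  obtain ⟨P, hP1, hP2⟩ : ∃ P : Finset (WeierstrassCurve.mk 0 0 0 (t.1 : ℚ)
      (t.2 : ℚ)).toAffine.Point, (P : Set _) ⊆ s ∧ N < P.card := by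
    rcases s.finite_or_infinite with hf | hf
    · refine ⟨hf.toFinset, by rw [Set.Finite.coe_toFinset], ?_⟩
      have h6 : Cardinal.mk s = (hf.toFinset.card : Cardinal) := by
        rw [← Cardinal.mk_coe_finset]
        congr 1
        simp
      rw [h6] at h5
      exact_mod_cast h5
    · obtain ⟨P, hP1, hP2⟩ := hf.exists_subset_card_eq (N + 1)
      exact ⟨P, hP1, by omega⟩
  refine ⟨P.image (co t), ?_, ?_⟩
  · rw [Finset.card_image_of_injOn]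
    · exact hP2
    · intro a ha b hb hab
      have ha' := hP1 ha
      have hb' := hP1 hb
      rw [hs] at ha' hb'
      obtain ⟨x, y, hxy, rfl, -⟩ := ha'
      obtain ⟨x', y', hxy', rfl, -⟩ := hb'
      have h6 : x = x' := congrArg Prod.fst hab
      have h7 : y = y' := congrArg Prod.snd hab
      subst h6
      subst h7
      rfl
  · intro q hq
    obtain ⟨a, ha, rfl⟩ := Finset.mem_image.1 hq
    have ha' := hP1 ha
    rw [hs] at ha'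
    obtain ⟨x, y, hxy, rfl, h6, h7⟩ := ha'
    refine ⟨h6, h7, ?_⟩
    have h8 := (WeierstrassCurve.Affine.equation_iff _ _).1 hxy.1
    show y ^ 2 = x ^ 3 + (t.1 : ℚ) * x + t.2
    simpa using h8

end Pool.Agent.R323.SH
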