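import Pool.Agent.R323.SH.I

/-!
# Integral points with abscissae in a small set
-/

set_option autoImplicit false

namespace Pool.Agent.R323.SH

/-- **Elliptic curves with many integral points with abscissae in a small set.** -/
theorem integral (B : ℕ) (ε : ℝ) (hε : 0 < ε) : ∃ (N : ℕ) (δ C : ℝ), 0 < δ ∧
    ∀ Y : ℕ, 1 ≤ Y → ∀ V : Finset ℤ, (V.card : ℝ) ≤ (Y : ℝ) ^ δ → (∀ x ∈ V, |x| ≤ (Y : ℤ) ^ B) →
    ∀ S : Finset (ℤ × ℤ), (∀ t ∈ S, |t.1| ≤ (Y : ℤ) ∧ |t.2| ≤ (Y : ℤ) ∧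
      4 * t.1 ^ 3 + 27 * t.2 ^ 2 ≠ 0 ∧ ∃ P : Finset (ℤ × ℤ), N < P.card ∧ ∀ q ∈ P,
        q.1 ∈ V ∧ q.2 ^ 2 = q.1 ^ 3 + t.1 * q.1 + t.2) →
      (S.card : ℝ) ≤ C * (Y : ℝ) ^ ε := by
  classical
  obtain ⟨N, δ, C, hδ, h⟩ := main 3 2 le_rfl B ε hε
  refine ⟨N, δ, C, hδ, fun Y hY V hV hVB S hS => ?_⟩
  have hinj : Function.Injective (fun q : ℤ × ℤ => ((q.1 : ℚ), (q.2 : ℚ))) := by
    intro a b hab
    simp only [Prod.mk.injEq, Int.cast_inj] at hab
    exact Prod.ext hab.1 hab.2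
  have h1 := h Y hY (V.image fun x : ℤ => (x : ℚ))
    ((by exact_mod_cast Finset.card_image_le : (((V.image fun x : ℤ => (x : ℚ)).card : ℕ) : ℝ) ≤
      V.card).trans hV) (fun x hx => by
      obtain ⟨z, hz, rfl⟩ := Finset.mem_image.1 hx
      rw [Rat.num_intCast, Rat.den_intCast]
      exact ⟨hVB z hz, Nat.one_le_pow _ _ hY⟩) (S.image ec) (by
      intro f hf
      obtain ⟨t, ht, rfl⟩ := Finset.mem_image.1 hf
      obtain ⟨e1, e2, e3, P, hP1, hP2⟩ := hS t ht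
      refine ⟨ec_natDegree t, ?_, ec_sqfree t e3, P.image fun q => ((q.1 : ℚ), (q.2 : ℚ)), ?_, ?_⟩
      · intro j
        rw [ec_coeff]
        have hY1 : (1 : ℤ) ≤ Y := by exact_mod_cast hY
        split_ifs
        · rw [abs_one]; exact hY1
        · exact e1
        · exact e2
        · rw [abs_zero]; omega
      · rw [Finset.card_image_of_injective _ hinj]
        exact hP1
      · intro q hq
        obtain ⟨p, hp, rfl⟩ := Finset.mem_image.1 hq
        obtain ⟨e4, e5⟩ := hP2 p hp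
        refine ⟨Finset.mem_image_of_mem _ e4, ?_⟩
        rw [ec_map]
        have e6 : ((p.2 : ℚ)) ^ 2 = (p.1 : ℚ) ^ 3 + t.1 * p.1 + t.2 := by exact_mod_cast e5
        rw [e6]
        simp) (by
      intro f hf g hg hfg
      obtain ⟨s, hs, rfl⟩ := Finset.mem_image.1 hf
      obtain ⟨t, ht, rfl⟩ := Finset.mem_image.1 hg
      rintro ⟨l, hl, hlt⟩
      apply hfg
      have e1 : l ^ 2 = 1 := by
        have e2 := congrArg (fun f : Polynomial ℚ => f.coeff 3) hlt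
        simp only [Polynomial.coeff_C_mul, Polynomial.coeff_map, ec_coeff] at e2
        simpa using e2.symm
      rw [e1, Polynomial.C_1, one_mul] at hlt
      exact (Polynomial.map_injective _ (Int.castRingHom ℚ).injective_int hlt).symm)
  rw [Finset.card_image_of_injective _ ec_inj] at h1
  exact h1

end Pool.Agent.R323.SH
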