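import Pool.Agent.R323.SH.J

/-!
# Curves of large rank with small generators, counted by the naive height
-/

set_option autoImplicit false

namespace Pool.Agent.R323.SH

theorem count_rank (ε : ℝ) (hε : 0 < ε) : ∃ (r : ℕ) (δ C : ℝ), 0 < δ ∧ ∀ H : ℝ, 1 ≤ H →
    ({p : ℤ × ℤ |
        4 * p.1 ^ 3 + 27 * p.2 ^ 2 ≠ 0 ∧
        (((max (4 * |p.1| ^ 3) (27 * p.2 ^ 2) : ℤ) : ℝ) ≤ H) ∧
        (r : Cardinal) ≤ Module.rank ℤ (Submodule.span ℤ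
          {P : (WeierstrassCurve.toAffine
            (⟨0, 0, 0, (p.1 : ℚ), (p.2 : ℚ)⟩ : WeierstrassCurve ℚ)).Point |
            ∃ x y h, P = .some x y h ∧ (|x.num| : ℝ) ≤ H ^ δ ∧ (x.den : ℝ) ≤ H ^ δ})}).Finite ∧
    ((Set.ncard {p : ℤ × ℤ |
        4 * p.1 ^ 3 + 27 * p.2 ^ 2 ≠ 0 ∧
        (((max (4 * |p.1| ^ 3) (27 * p.2 ^ 2) : ℤ) : ℝ) ≤ H) ∧
        (r : Cardinal) ≤ Module.rank ℤ (Submodule.span ℤ
          {P : (WeierstrassCurve.toAffine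
            (⟨0, 0, 0, (p.1 : ℚ), (p.2 : ℚ)⟩ : WeierstrassCurve ℚ)).Point |
            ∃ x y h, P = .some x y h ∧ (|x.num| : ℝ) ≤ H ^ δ ∧ (x.den : ℝ) ≤ H ^ δ})} : ℕ) : ℝ)
      ≤ C * H ^ ε := by
  classical
  obtain ⟨N, δ, C, hδ, h⟩ := elliptic_rank ε hε
  obtain ⟨h0, -⟩ : 0 ≤ max C 0 ∧ True := ⟨le_max_right _ _, trivial⟩
  refine ⟨N + 1, δ / 2, max C 0 * 2 ^ ε, by positivity, fun H hH => ?_⟩
  obtain ⟨Y, hYd⟩ : ∃ Y : ℕ, Y = ⌈H ^ (1 / 2 : ℝ)⌉₊ := ⟨_, rfl⟩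
  have hH0 : (0 : ℝ) < H := by linarith
  have hs1 : (1 : ℝ) ≤ H ^ (1 / 2 : ℝ) := Real.one_le_rpow hH (by norm_num)
  have hs2 : (H ^ (1 / 2 : ℝ)) ^ 2 = H := by
    rw [← Real.rpow_natCast, ← Real.rpow_mul hH0.le]
    norm_num
  have hYge : H ^ (1 / 2 : ℝ) ≤ Y := by rw [hYd]; exact Nat.le_ceil _
  have hYle : (Y : ℝ) ≤ 2 * H ^ (1 / 2 : ℝ) := by
    have := Nat.ceil_lt_add_one (by linarith : (0 : ℝ) ≤ H ^ (1 / 2 : ℝ))
    rw [← hYd] at this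
    linarith
  have hYleH : (Y : ℝ) ≤ 2 * H := by nlinarith
  have hY1 : 1 ≤ Y := by
    have : (1 : ℝ) ≤ Y := by linarith
    exact_mod_cast this
  have hY0 : (0 : ℝ) < Y := by exact_mod_cast hY1
  obtain ⟨T, hT⟩ : ∃ T : Set (ℤ × ℤ), T = {p : ℤ × ℤ |
        4 * p.1 ^ 3 + 27 * p.2 ^ 2 ≠ 0 ∧
        (((max (4 * |p.1| ^ 3) (27 * p.2 ^ 2) : ℤ) : ℝ) ≤ H) ∧
        ((N + 1 : ℕ) : Cardinal) ≤ Module.rank ℤ (Submodule.span ℤ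
          {P : (WeierstrassCurve.toAffine
            (⟨0, 0, 0, (p.1 : ℚ), (p.2 : ℚ)⟩ : WeierstrassCurve ℚ)).Point |
            ∃ x y h, P = .some x y h ∧ (|x.num| : ℝ) ≤ H ^ (δ / 2) ∧
              (x.den : ℝ) ≤ H ^ (δ / 2)})} := ⟨_, rfl⟩
  rw [← hT]
  have key : ∀ p ∈ T, |p.1| ≤ (Y : ℤ) ∧ |p.2| ≤ (Y : ℤ) ∧ 4 * p.1 ^ 3 + 27 * p.2 ^ 2 ≠ 0 ∧
      (N : Cardinal) < Module.rank ℤ (Submodule.span ℤ
        {P : (WeierstrassCurve.mk 0 0 0 (p.1 : ℚ) (p.2 : ℚ)).toAffine.Point |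
          ∃ x y h, P = .some x y h ∧ (|x.num| : ℝ) ≤ (Y : ℝ) ^ δ ∧
            (x.den : ℝ) ≤ (Y : ℝ) ^ δ}) := by
    intro p hp
    rw [hT] at hp
    obtain ⟨e1, e2, e3⟩ := hp
    push_cast at e2
    have e4 := (le_max_left _ _).trans e2
    have e5 := (le_max_right _ _).trans e2
    have hA : |p.1| ≤ (Y : ℤ) := by
      have : (|(p.1 : ℝ)|) ≤ Y := by
        by_contra hc
        push Not at hc
        have e6 : H ^ (1 / 2 : ℝ) < |(p.1 : ℝ)| := by linarith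
        nlinarith [sq_nonneg (|(p.1 : ℝ)| - H ^ (1 / 2 : ℝ)), pow_pos (by linarith : (0:ℝ) < |(p.1 : ℝ)|) 3,
          mul_pos (by linarith : (0:ℝ) < |(p.1 : ℝ)| - H ^ (1 / 2 : ℝ)) (by linarith : (0:ℝ) < |(p.1 : ℝ)|),
          mul_nonneg (mul_self_nonneg |(p.1 : ℝ)|) (by linarith : (0:ℝ) ≤ |(p.1 : ℝ)| - 1)]
      exact_mod_cast this
    have hB : |p.2| ≤ (Y : ℤ) := by
      have : (|(p.2 : ℝ)|) ≤ Y := by
        by_contra hc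
        push Not at hc
        have e6 : H ^ (1 / 2 : ℝ) < |(p.2 : ℝ)| := by linarith
        have e7 : (p.2 : ℝ) ^ 2 = |(p.2 : ℝ)| ^ 2 := (sq_abs _).symm
        rw [e7] at e5
        nlinarith
      exact_mod_cast this
    refine ⟨hA, hB, e1, ?_⟩
    have e8 : (N : Cardinal) < ((N + 1 : ℕ) : Cardinal) := by exact_mod_cast Nat.lt_succ_self N
    refine lt_of_lt_of_le e8 (e3.trans ?_)
    apply Submodule.rank_mono
    apply Submodule.span_mono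
    rintro P ⟨x, y, hxy, rfl, e9, e10⟩
    have e11 : H ^ (δ / 2) ≤ (Y : ℝ) ^ δ := by
      calc H ^ (δ / 2) = (H ^ (1 / 2 : ℝ)) ^ δ := by
            rw [← Real.rpow_mul hH0.le]
            congr 1
            ring
        _ ≤ (Y : ℝ) ^ δ := Real.rpow_le_rpow (by linarith) hYge hδ.le
    exact ⟨x, y, hxy, rfl, e9.trans e11, e10.trans e11⟩
  have hfin : T.Finite := by
    refine Set.Finite.subset (Set.Finite.prod (Set.finite_Icc (-(Y : ℤ)) Y)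
      (Set.finite_Icc (-(Y : ℤ)) Y)) ?_
    intro p hp
    obtain ⟨e1, e2, -⟩ := key p hp
    exact ⟨⟨(abs_le.1 e1).1, (abs_le.1 e1).2⟩, ⟨(abs_le.1 e2).1, (abs_le.1 e2).2⟩⟩
  refine ⟨hfin, ?_⟩
  have h1 := h Y hY1 hfin.toFinset (fun t ht => key t (hfin.mem_toFinset.1 ht))
  rw [Set.ncard_eq_toFinset_card T hfin]
  have hYε : (Y : ℝ) ^ ε ≤ 2 ^ ε * H ^ ε := by
    rw [← Real.mul_rpow (by norm_num) hH0.le]
    exact Real.rpow_le_rpow hY0.le hYleH hε.le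
  calc ((hfin.toFinset.card : ℕ) : ℝ) ≤ C * (Y : ℝ) ^ ε := h1
    _ ≤ max C 0 * (Y : ℝ) ^ ε := mul_le_mul_of_nonneg_right (le_max_left _ _) (by positivity)
    _ ≤ max C 0 * (2 ^ ε * H ^ ε) := mul_le_mul_of_nonneg_left hYε h0
    _ = max C 0 * 2 ^ ε * H ^ ε := by ring

end Pool.Agent.R323.SH
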